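import Pool.Agent.TH188.ARC.A21

/-!
# Traits with finite residue fields and bounded ramification
-/

set_option autoImplicit false
set_option linter.unusedVariables false
set_option linter.unusedSectionVars false

namespace Pool.Agent.U426.PA

open IsLocalRing Pool.Agent.TH188.QS Pool.Agent.W418.LU2 Pool.Agent.H918R2.Quad
  Pool.Agent.TH188.ARC

/-- Bounds for the values of the integers and for the residue field. -/
structure Bd (β : ℕ → ℕ) {L : Type} [Field L] (VL : ValuationSubring L) : Prop where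
  dvr : IsDiscreteValuationRing VL
  fin : Finite (ResidueField VL)
  pos : ∃ N : ℕ, N ≠ 0 ∧ VL.valuation (N : L) < 1
  val : ∀ N : ℕ, N ≠ 0 → ∀ (n : ℕ) (z : ℕ → L),
    (∀ i < n, z i ∈ VL ∧ z i ≠ 0 ∧ VL.valuation (z i) < 1) →
    (N : L) * (∏ i ∈ Finset.range n, z i)⁻¹ ∈ VL → n ≤ β N
  card : ∀ N : ℕ, N ≠ 0 → VL.valuation (N : L) < 1 → Nat.card (ResidueField VL) ≤ β N

lemma Bd.mono {β β' : ℕ → ℕ} (h : ∀ N, β N ≤ β' N) {L : Type} [Field L]
    {VL : ValuationSubring L} (hV : Bd β VL) : Bd β' VL :=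
  ⟨hV.dvr, hV.fin, hV.pos, fun N hN n z hz hc => (hV.val N hN n z hz hc).trans (h N),
    fun N hN hc => (hV.card N hN hc).trans (h N)⟩

/-- The valuation rings of a number field. -/
lemma bd_numberField {L : Type} [Field L] [NumberField L] {d : ℕ}
    (hL : Module.finrank ℚ L ≤ d) (VL : ValuationSubring L) (hVL : IsDiscreteValuationRing VL) :
    Bd (fun N => N ^ d) VL := by
  have hne := ne_top_of_dvr VL
  refine ⟨hVL, finite_residue VL hne, exists_int VL hne, ?_, ?_⟩
  · intro N hN n z hz hc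
    have h1 := value_bound hne hN hz hc
    have h2 : n < 2 ^ n := Nat.lt_two_pow_self
    have h3 : N ^ Module.finrank ℚ L ≤ N ^ d := Nat.pow_le_pow_right (Nat.pos_of_ne_zero hN) hL
    change n ≤ N ^ d
    omega
  · intro N hN hc
    exact (card_residue hne hN hc).trans (Nat.pow_le_pow_right (Nat.pos_of_ne_zero hN) hL)

/-- The bound attached to a bound for the residue rings modulo `p`. -/
def bnd (C : ℕ → ℕ) (N : ℕ) : ℕ := (N + 1) * (∑ q ∈ Finset.range (N + 1), C q)

lemma le_bnd (C : ℕ → ℕ) {N p : ℕ} (hp : p ≤ N) (a : ℕ) (ha : a ≤ N + 1) : a * C p ≤ bnd C N := by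
  unfold bnd
  refine Nat.mul_le_mul ha ?_
  exact Finset.single_le_sum (f := C) (fun _ _ => Nat.zero_le _)
    (Finset.mem_range.2 (Nat.lt_succ_of_le hp))

section

variable {L : Type} [Field L] [CharZero L] (V : ValuationSubring L) [IsDiscreteValuationRing V]

lemma val_lt_iff_mem (x : V) : V.valuation (x : L) < 1 ↔ x ∈ maximalIdeal V :=
  (V.valuation_lt_one_iff x).symm

lemma natCast_val (n : ℕ) : ((n : V) : L) = (n : L) := by norm_cast

lemma nat_lt_iff (n : ℕ) : V.valuation (n : L) < 1 ↔ (n : V) ∈ maximalIdeal V := by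
  rw [← natCast_val V n]
  exact val_lt_iff_mem V _

/-- Distinct powers. -/
lemma card_gt {p : ℕ} (hp0 : (p : V) ≠ 0) (hfin : Finite (V ⧸ Ideal.span {(p : V)})) {ϖ : V}
    (hϖ : Irreducible ϖ) {e : ℕ} (he : Associated (p : V) (ϖ ^ e)) :
    e ≤ Nat.card (V ⧸ Ideal.span {(p : V)}) := by
  have hmem : ∀ x : V, x ∈ Ideal.span {(p : V)} ↔ ϖ ^ e ∣ x := by
    intro x
    rw [Ideal.mem_span_singleton]
    exact he.dvd_iff_dvd_left
  let f : Fin e → V ⧸ Ideal.span {(p : V)} := fun i => Ideal.Quotient.mk _ (ϖ ^ (i : ℕ))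
  have hinj : Function.Injective f := by
    have key : ∀ i j : ℕ, i < j → j < e →
        (Ideal.Quotient.mk (Ideal.span {(p : V)}) (ϖ ^ i)) ≠
          Ideal.Quotient.mk (Ideal.span {(p : V)}) (ϖ ^ j) := by
      intro i j hij hje heq
      rw [Ideal.Quotient.eq, hmem] at heq
      have h1 : ϖ ^ (i + 1) ∣ ϖ ^ i - ϖ ^ j := (pow_dvd_pow _ (by omega)).trans heq
      have h2 : ϖ ^ (i + 1) ∣ ϖ ^ j := pow_dvd_pow _ hij
      have h3 : ϖ ^ (i + 1) ∣ ϖ ^ i := (dvd_sub_left h2).1 h1
      rw [pow_dvd_pow_iff hϖ.ne_zero hϖ.not_isUnit] at h3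
      omega
    intro i j hij
    rcases lt_trichotomy (i : ℕ) (j : ℕ) with h | h | h
    · exact absurd hij (key _ _ h j.2)
    · exact Fin.ext h
    · exact absurd hij.symm (key _ _ h i.2)
  have := Nat.card_le_card_of_injective f hinj
  rwa [Nat.card_eq_fintype_card, Fintype.card_fin] at this

/-- Discrete valuation rings with finite rings modulo `p`. -/
theorem bd_of_card (C : ℕ → ℕ) {p : ℕ} (hp : p.Prime) (hpu : ¬ IsUnit (p : V))
    (hfin : Finite (V ⧸ Ideal.span {(p : V)}))
    (hcard : Nat.card (V ⧸ Ideal.span {(p : V)}) ≤ C p) : Bd (bnd C) V := by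
  classical
  have hnat : ∀ n : ℕ, n ≠ 0 → (n : V) ≠ 0 := by
    intro n hn h
    have h1 : ((n : V) : L) = 0 := by rw [h]; rfl
    rw [natCast_val] at h1
    exact hn (by exact_mod_cast h1)
  have hp0 := hnat p hp.ne_zero
  have hpm : (p : V) ∈ maximalIdeal V := (mem_maximalIdeal _).2 hpu
  -- integers prime to `p` are units
  have hcop : ∀ m : ℕ, ¬ p ∣ m → (m : V) ∉ maximalIdeal V := by
    intro m hm hmm
    have h1 : IsCoprime (p : ℤ) (m : ℤ) :=
      Nat.isCoprime_iff_coprime.2 ((Nat.Prime.coprime_iff_not_dvd hp).2 hm)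
    obtain ⟨a, b, hab⟩ := h1
    have h2 : (a : V) * (p : V) + (b : V) * (m : V) = 1 := by exact_mod_cast congrArg (fun z : ℤ => (z : V)) hab
    have h3 : (1 : V) ∈ maximalIdeal V := by
      rw [← h2]
      exact Ideal.add_mem _ (Ideal.mul_mem_left _ _ hpm) (Ideal.mul_mem_left _ _ hmm)
    exact (mem_maximalIdeal _).1 h3 isUnit_one
  -- the residue field is a quotient
  have hle : Ideal.span {(p : V)} ≤ maximalIdeal V := by
    rw [Ideal.span_singleton_le_iff_mem]
    exact hpm
  let q : V ⧸ Ideal.span {(p : V)} →+* ResidueField V := Ideal.Quotient.factor hle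
  have hq : Function.Surjective q := Ideal.Quotient.factor_surjective hle
  have hfinr : Finite (ResidueField V) := Finite.of_surjective _ hq
  have hcr : Nat.card (ResidueField V) ≤ C p :=
    (Nat.card_le_card_of_surjective _ hq).trans hcard
  obtain ⟨ϖ, hϖ⟩ := IsDiscreteValuationRing.exists_irreducible V
  obtain ⟨e, he⟩ := IsDiscreteValuationRing.associated_pow_irreducible hp0 hϖ
  have heC : e ≤ C p := (card_gt V hp0 hfin hϖ he).trans hcard
  refine ⟨inferInstance, hfinr, ⟨p, hp.ne_zero, (nat_lt_iff V p).2 hpm⟩, ?_, ?_⟩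
  · intro N hN n z hz hc
    -- the factorization of `N`
    obtain ⟨a, m, hpm', hNam⟩ := Nat.exists_eq_pow_mul_and_not_dvd hN p hp.ne_one
    have hmu : IsUnit (m : V) := by
      by_contra h
      exact hcop m hpm' ((mem_maximalIdeal _).2 h)
    let z' : ℕ → V := fun i => if hi : i < n then ⟨z i, (hz i hi).1⟩ else 1
    have hz' : ∀ i < n, ((z' i : V) : L) = z i := fun i hi => by
      simp only [z', dif_pos hi]
    have hprod : ((∏ i ∈ Finset.range n, z' i : V) : L) = ∏ i ∈ Finset.range n, z i := by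
      rw [SubmonoidClass.coe_finsetProd]
      exact Finset.prod_congr rfl fun i hi => hz' i (Finset.mem_range.1 hi)
    have hdz : ∀ i < n, ϖ ∣ z' i := by
      intro i hi
      have h1 : z' i ∈ maximalIdeal V := by
        rw [← val_lt_iff_mem, hz' i hi]
        exact (hz i hi).2.2
      rw [hϖ.maximalIdeal_eq, Ideal.mem_span_singleton] at h1
      exact h1
    have hdp : ϖ ^ n ∣ ∏ i ∈ Finset.range n, z' i := by
      have h1 : ∏ i ∈ Finset.range n, ϖ ∣ ∏ i ∈ Finset.range n, z' i :=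
        Finset.prod_dvd_prod_of_dvd _ _ fun i hi => hdz i (Finset.mem_range.1 hi)
      rwa [Finset.prod_const, Finset.card_range] at h1
    have hZ0 : ∏ i ∈ Finset.range n, z i ≠ 0 :=
      Finset.prod_ne_zero_iff.2 fun i hi => (hz i (Finset.mem_range.1 hi)).2.1
    have hdN : ∏ i ∈ Finset.range n, z' i ∣ (N : V) := by
      refine ⟨⟨_, hc⟩, Subtype.ext ?_⟩
      change ((N : V) : L) = ((∏ i ∈ Finset.range n, z' i : V) : L) * _
      rw [hprod, natCast_val]
      field_simp
    have h2 : ϖ ^ n ∣ ϖ ^ (e * a) := by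
      have h3 : Associated (N : V) (ϖ ^ (e * a)) := by
        rw [hNam, Nat.cast_mul, Nat.cast_pow, pow_mul]
        have h4 : Associated ((p : V) ^ a) ((ϖ ^ e) ^ a) := he.pow_pow
        have h5 : Associated ((p : V) ^ a * (m : V)) ((p : V) ^ a) :=
          associated_mul_unit_left _ _ hmu
        exact h5.trans h4
      exact (hdp.trans hdN).trans h3.dvd
    have h3 : n ≤ e * a := (pow_dvd_pow_iff hϖ.ne_zero hϖ.not_isUnit).1 h2
    by_cases ha : a = 0
    · rw [ha, Nat.mul_zero] at h3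
      omega
    have hpN : p ≤ N := by
      rw [hNam]
      have h4 : m ≠ 0 := fun h => hpm' (by rw [h]; exact dvd_zero p)
      calc p = p ^ 1 := (pow_one p).symm
        _ ≤ p ^ a := Nat.pow_le_pow_right hp.pos (Nat.one_le_iff_ne_zero.2 ha)
        _ ≤ p ^ a * m := Nat.le_mul_of_pos_right _ (Nat.pos_of_ne_zero h4)
    have haN : a ≤ N := by
      have h4 : m ≠ 0 := fun h => hpm' (by rw [h]; exact dvd_zero p)
      rw [hNam]
      calc a ≤ 2 ^ a := Nat.lt_two_pow_self.le
        _ ≤ p ^ a := Nat.pow_le_pow_left hp.two_le _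
        _ ≤ p ^ a * m := Nat.le_mul_of_pos_right _ (Nat.pos_of_ne_zero h4)
    calc n ≤ e * a := h3
      _ ≤ C p * a := Nat.mul_le_mul_right _ heC
      _ = a * C p := Nat.mul_comm _ _
      _ ≤ bnd C N := le_bnd C hpN a (by omega)
  · intro N hN hc
    have hpN : p ∣ N := by
      by_contra h
      exact hcop N h ((nat_lt_iff V N).1 hc)
    have h1 := le_bnd C (Nat.le_of_dvd (Nat.pos_of_ne_zero hN) hpN) 1 (by omega)
    rw [one_mul] at h1
    exact hcr.trans h1

end

end Pool.Agent.U426.PA
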