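import Pool.Agent.U426.PA.A

/-!
# The levels of a bounded family of traits
-/

set_option autoImplicit false
set_option linter.unusedVariables false
set_option linter.unusedSectionVars false

namespace Pool.Agent.U426.PA

open IsLocalRing Pool.Agent.TH188.QS Pool.Agent.W418.LU2 Pool.Agent.H918R2.Quad
  Pool.Agent.TH188.ARC

variable {O F : Type} [CommRing O] [Field F] [Algebra O F]

lemma map_mem_val' {L : Type} [Field L] (hint : ∀ o : O, IsIntegral ℤ o) (φ : O →+* L)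
    (V : ValuationSubring L) (o : O) : φ o ∈ V := by
  have h2 : IsIntegral V (φ o) := by
    obtain ⟨p, hp, hp0⟩ := hint o
    refine ⟨p.map (Int.castRingHom V), hp.map _, ?_⟩
    rw [Polynomial.eval₂_map]
    have h3 := congrArg φ hp0
    rw [Polynomial.hom_eval₂, map_zero] at h3
    have h4 : (algebraMap V L).comp (Int.castRingHom V) = φ.comp (algebraMap ℤ O) :=
      RingHom.ext_int _ _
    rw [h4]
    exact h3
  obtain ⟨v, hv⟩ := IsIntegrallyClosed.isIntegral_iff.1 h2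
  rw [← hv]
  exact v.2

/-- The valuations attached to the traits with bounded values and residue fields. -/
def Fb (M₀ : Submodule O F) (β : ℕ → ℕ) : Set (ValuationSubring F) :=
  {W | ∃ (L : Type) (_ : Field L) (_ : CharZero L) (A : Subring F) (π : A →+* L) (y₀ : F)
    (VL : ValuationSubring L), Pt M₀ A π y₀ ∧ Bd β VL ∧ Tr A π VL W}

lemma fam_b [IsDomain O] (hint : ∀ o : O, IsIntegral ℤ o) (M₀ : Submodule O F) (β : ℕ → ℕ) :
    Fam M₀ (Fb M₀ β) := by
  refine ⟨?_, ?_, ?_⟩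
  · rintro W ⟨L, _, _, A, π, y₀, VL, hP, hB, hW⟩ o
    exact (hW.mem ⟨_, hP.OA o⟩).2 (map_mem_val' hint
      (π.comp ((algebraMap O F).codRestrict A hP.OA)) VL o)
  · rintro W ⟨L, _, _, A, π, y₀, VL, hP, hB, hW⟩
    obtain ⟨n, hn, hnV⟩ := hB.pos
    obtain ⟨h1, h2, h3⟩ := hP.nat_ne hn
    refine ⟨n, h2, ?_⟩
    rw [map_natCast]
    exact (Pt.val_nat (M₀ := M₀) hW n).2 hnV
  · rintro W ⟨L, _, _, A, π, y₀, VL, hP, hB, hW⟩ D M hM j hj hj0 hMW
    have hOW : ∀ o, algebraMap O F o ∈ W := fun o => (hW.mem ⟨_, hP.OA o⟩).2 (map_mem_val' hint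
      (π.comp ((algebraMap O F).codRestrict A hP.OA)) VL o)
    have hfin := hB.fin
    obtain ⟨hMA, -⟩ := frac_chart hW hP.OA hP.OL hP.mem hP.ne hP.MA hP.fr hM.pos hM.le hM.comm
      hj hj0 hMW
    exact max_of_finite hW (fun b hb => chart_le_A hP.OA hMA hb)
      (fun b hb => chart_le_V hOW hMW hb)

/-- The levels on the initial model are bounded. -/
theorem level_b [IsDomain O] (hint : ∀ o : O, IsIntegral ℤ o) {ι : Type} [Fintype ι] [Nonempty ι]
    (y : ι → F) (hy : ∀ i, y i ≠ 0) {N : ℕ} (hN : N ≠ 0)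
    (hst : ∀ i, Star (chart O (Submodule.span O (Set.range y)) (y i)).toSubring (N : F))
    (β : ℕ → ℕ) :
    (∀ W ∈ Fb (Submodule.span O (Set.range y)) β,
      Lv W (Submodule.span O (Set.range y)) (β N)) ∧
    (∀ W ∈ Fb (Submodule.span O (Set.range y)) β, ¬ W.valuation (N : F) < 1 →
      Lv W (Submodule.span O (Set.range y)) 0) := by
  classical
  set M₀ : Submodule O F := Submodule.span O (Set.range y) with hM₀
  have hG : Submodule.span O ((Finset.univ.image y : Finset F) : Set F) = M₀ := by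
    rw [Finset.coe_image, Finset.coe_univ, Set.image_univ]
  obtain ⟨i₁⟩ := ‹Nonempty ι›
  have hyM : ∀ i, y i ∈ M₀ := fun i => Submodule.subset_span ⟨i, rfl⟩
  have hCm : Cm M₀ 1 M₀ := Cm.init ⟨_, hG⟩ ⟨y i₁, hyM i₁, hy i₁⟩
  have hfam := fam_b hint M₀ β
  have key : ∀ W ∈ Fb M₀ β, ∀ n : ℕ, (∀ B : Subring F,
      (∀ z : ℕ → F, (∀ i < n, z i ∈ qseq W B i ∧ z i ≠ 0 ∧ W.valuation (z i) < 1) →
        (∀ i, qseq W B i ≤ W.toSubring) → (∃ (L : Type) (_ : Field L) (_ : CharZero L)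
          (A : Subring F) (π : A →+* L) (VL : ValuationSubring L),
          Bd β VL ∧ Tr A π VL W ∧ (∀ i, qseq W B i ≤ A)) →
        (N : F) * (∏ i ∈ Finset.range n, z i)⁻¹ ∉ W)) → ∀ k, n ≤ k + 1 → Lv W M₀ k := by
    intro W hWF n hn k hk
    have hOW := hfam.O_mem W hWF
    obtain ⟨ϖ, hϖ0, hϖ⟩ := hfam.pos W hWF
    obtain ⟨L, _, _, A, π, y₀, VL, hP, hB, hW⟩ := hWF
    obtain ⟨j, hjG, hj0, hMW⟩ := exists_gen_max' hOW hG (hyM i₁) (hy i₁)
    obtain ⟨i, -, rfl⟩ := Finset.mem_image.1 hjG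
    obtain ⟨hMA, -⟩ := frac_chart hW hP.OA hP.OL hP.mem hP.ne hP.MA hP.fr hCm.pos hCm.le hCm.comm
      (hyM i) hj0 hMW
    have hBA := chart_le_A hP.OA hMA
    have hBW := chart_le_V hOW hMW
    have hϖB : algebraMap O F ϖ ∈ (chart O M₀ (y i)).toSubring :=
      Subalgebra.algebraMap_mem (chart O M₀ (y i)) ϖ
    have hϖA : ∀ hA : algebraMap O F ϖ ∈ A, π ⟨_, hA⟩ ≠ 0 := fun hA =>
      hP.OL ϖ (fun h => hϖ0 (by rw [h, map_zero]))
    have hq := fun m => (hW.qseq_le hBA hϖB hϖ hϖA m).1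
    have hqW : ∀ m, qseq W (chart O M₀ (y i)).toSubring m ≤ W.toSubring := by
      intro m
      obtain ⟨hfg, -⟩ : (∀ m, qseq W (chart O M₀ (y i)).toSubring m ≤ W.toSubring) ∧ True := by
        refine ⟨?_, trivial⟩
        intro m
        induction m with
        | zero => exact lo_le hBW
        | succ m ih => exact qt_le ih
      exact hfg m
    obtain ⟨m, hm, hr⟩ := hst i W hBW _ hϖB hϖ0 hϖ n fun z hz =>
      hn _ z hz hqW ⟨L, inferInstance, inferInstance, A, π, VL, hB, hW, hq⟩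
    refine ⟨_, ⟨y i, hyM i, hj0, hMW, rfl⟩, m, by omega, ?_⟩
    rw [← qseq_eq]
    exact hr
  refine ⟨fun W hW => ?_, fun W hW hNW => ?_⟩
  · refine key W hW (β N + 1) ?_ _ le_rfl
    rintro B z hz hqW ⟨L, _, _, A, π, VL, hB, hW, hq⟩
    have h1 : (N : F) ∈ A := by
      have : ((N : A) : F) = (N : F) := by norm_cast
      rw [← this]
      exact (N : A).2
    have h2 : (⟨(N : F), h1⟩ : A) = (N : A) := Subtype.ext (by norm_cast)
    have h3 : π ⟨(N : F), h1⟩ = (N : L) := by rw [h2, map_natCast]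
    refine hW.dv_of hq h1 ?_ ?_ z hz
    · rw [h3]
      exact_mod_cast hN
    · intro z' hz' hcon
      rw [h3] at hcon
      have h4 := hB.val N hN _ z' hz' hcon
      omega
  · refine key W hW 1 ?_ _ le_rfl
    rintro B z hz hqW - hcon
    apply hNW
    obtain ⟨-, hz0, hzW⟩ := hz 0 Nat.zero_lt_one
    rw [Finset.prod_range_one] at hcon
    have h1 : (N : F) = (N : F) * (z 0)⁻¹ * z 0 := by field_simp
    rw [h1, map_mul]
    exact mul_lt_one_aux ((W.valuation_le_one_iff _).2 hcon) hzW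

/-- Finitely many centres. -/
theorem centres_b [IsDomain O] [Module.Finite ℤ O] (hint : ∀ o : O, IsIntegral ℤ o)
    {M₀ : Submodule O F} {N : ℕ} (hN : N ≠ 0) (β : ℕ → ℕ) {D : ℕ} {M : Submodule O F}
    (hM : Cm M₀ D M) :
    {Q : Subring F | ∃ W ∈ Fb M₀ β, W ∈ {W : ValuationSubring F | W.valuation (N : F) < 1} ∧
      LR W M Q}.Finite := by
  classical
  have hfam := fam_b hint M₀ β
  have h1 := finite_centres hM.fg hM.ne hN (β N)
    {W | W ∈ Fb M₀ β ∧ W.valuation (N : F) < 1} (fun W hW => hfam.O_mem W hW.1)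
    (fun W hW => hW.2) (by
      rintro W ⟨hWF, hNW⟩
      have hOW := hfam.O_mem W hWF
      obtain ⟨L, _, _, A, π, y₀, VL, hP, hB, hW⟩ := hWF
      have hfin := hB.fin
      have hNV : VL.valuation (N : L) < 1 := (Pt.val_nat (M₀ := M₀) hW N).1 hNW
      refine ⟨Nat.card (ResidueField VL), Finite.one_lt_card, hB.card N hN hNV, ?_⟩
      intro j hj hj0 hMW b hb
      obtain ⟨hMA, -⟩ := frac_chart hW hP.OA hP.OL hP.mem hP.ne hP.MA hP.fr hM.pos hM.le
        hM.comm hj hj0 hMW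
      have hbA : b ∈ A := chart_le_A hP.OA hMA hb
      have hbW : b ∈ W := chart_le_V hOW hMW hb
      have hβ : π ⟨b, hbA⟩ ∈ VL := (hW.mem ⟨b, hbA⟩).1 hbW
      have h2 := (hW.lt (⟨b, hbA⟩ ^ Nat.card (ResidueField VL) - ⟨b, hbA⟩)).2 (by
        rw [map_sub, map_pow]
        have h3 : residue VL (⟨_, hβ⟩ ^ Nat.card (ResidueField VL) - ⟨_, hβ⟩) = 0 := by
          have := Fintype.ofFinite (ResidueField VL)
          rw [map_sub, map_pow, Nat.card_eq_fintype_card, FiniteField.pow_card, sub_self]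
        rw [residue_eq_zero_iff, VL.valuation_lt_one_iff] at h3
        exact h3)
      exact h2)
  refine h1.subset ?_
  rintro Q ⟨W, hWF, hNW, hQ⟩
  exact ⟨W, ⟨hWF, hNW⟩, hQ⟩

/-- One module for all the bounded traits. -/
theorem module_b [IsDomain O] [IsRegularRing O] [Module.Finite ℤ O] {K : Type} [Field K]
    [Algebra O K] [IsFractionRing O K] [Algebra K F] [IsScalarTower O K F] [CharZero K]
    (hint : ∀ o : O, IsIntegral ℤ o) {ι : Type} [Fintype ι] [Nonempty ι]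
    (y : ι → F) (hy : ∀ i, y i ≠ 0)
    (hreg : ∀ (i : ι) (P : Ideal (Algebra.adjoin K (Set.range fun j => y j / y i)).toSubring)
      [P.IsPrime], IsRegularLocalRing (Localization.AtPrime P)) (β : ℕ → ℕ) :
    ∃ (D : ℕ) (M : Submodule O F), Cm (Submodule.span O (Set.range y)) D M ∧
      ∀ W ∈ Fb (Submodule.span O (Set.range y)) β, Rg W M := by
  classical
  obtain ⟨N, hN, hst⟩ := uniform_int (K := K) hint y hy hreg
  obtain ⟨h1, h2⟩ := level_b hint y hy hN hst β
  have hG : (Submodule.span O (Set.range y)).FG := ⟨Finset.univ.image y, by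
    rw [Finset.coe_image, Finset.coe_univ, Set.image_univ]⟩
  obtain ⟨i₁⟩ := ‹Nonempty ι›
  have hCm : Cm (Submodule.span O (Set.range y)) 1 (Submodule.span O (Set.range y)) :=
    Cm.init hG ⟨y i₁, Submodule.subset_span ⟨i₁, rfl⟩, hy i₁⟩
  obtain ⟨D, M, hM, hlv⟩ := level_zero (fam_b hint _ β)
    (𝓖 := {W : ValuationSubring F | W.valuation (N : F) < 1})
    (fun D M hM => centres_b hint hN β hM) (β N) hCm h1 h2
  exact ⟨D, M, hM, fun W hW => (hlv W hW).rg⟩

end Pool.Agent.U426.PA
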