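import Pool.Agent.U426.PA.B
import Pool.Agent.TH188.ARC.G9

/-!
# Models which are regular at the centres of all the bounded traits
-/

set_option autoImplicit false
set_option linter.unusedVariables false
set_option linter.unusedSectionVars false

open AlgebraicGeometry CategoryTheory Limits Pointwise HomogeneousLocalization

namespace Pool.Agent.U426.PA

open Pool.Agent.H918R2.Quad Pool.Agent.H968R2.Quad Pool.Agent.W559.GF Pool.Agent.W930.GF
  Pool.Agent.W191.GF Pool.Agent.W418.LU2 Pool.Agent.TH188.QS Pool.Agent.TH188.ARC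

section

variable {O K F : Type} [CommRing O] [IsDedekindDomain O] [Field K] [CharZero K] [Algebra O K]
  [IsFractionRing O K] [Field F] [Algebra K F] [Algebra O F] [IsScalarTower O K F]

theorem model_b [Module.Finite ℤ O] (hint : ∀ o : O, IsIntegral ℤ o) {ι : Type} [Fintype ι]
    [Nonempty ι] (y : ι → F) (hy : ∀ i, y i ≠ 0)
    {X : Scheme.{0}} {f : X ⟶ Spec (CommRingCat.of K)} (hsep : IsSeparated f)
    (hreg : ∀ x : X, IsRegularLocalRing (X.presheaf.stalk x))
    {η : Spec (CommRingCat.of F) ⟶ X}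
    (hη : η ≫ f = Spec.map (CommRingCat.ofHom (algebraMap K F)))
    (hX : AtlasAt η (fun i => (Algebra.adjoin K (Set.range fun j => y j / y i)).toSubring))
    (β : ℕ → ℕ) :
    ∃ (M : Submodule O F) (g : F) (hg : g ∈ M) (hg0 : g ≠ 0)
      (e : pullback (modelMap M) (Spec.map (CommRingCat.ofHom (algebraMap O K))) ≅ X), M.FG ∧
      e.hom ≫ f = pullback.snd _ _ ∧
      (∀ (L : Type) [Field L] [CharZero L] (VL : ValuationSubring L), Bd β VL →
        ∀ ψ : Spec (CommRingCat.of L) ⟶ X, ∃ ψ' : Spec (CommRingCat.of VL) ⟶ model M,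
        Spec.map (CommRingCat.ofHom VL.subtype) ≫ ψ' = ψ ≫ e.inv ≫ pullback.fst _ _ ∧
        IsRegularLocalRing ((model M).presheaf.stalk (ψ' (IsLocalRing.closedPoint VL)))) ∧
      (∀ (L : Type) [Field L] [NumberField L],
        (∀ VL : ValuationSubring L, IsDiscreteValuationRing VL → Bd β VL) →
        ∀ (ψ : Spec (CommRingCat.of L) ⟶ X) (z : model M),
        (ψ ≫ e.inv ≫ pullback.fst _ _) (thePt L) ⤳ z →
        IsRegularLocalRing ((model M).presheaf.stalk z)) := by
  classical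
  have hOK : Function.Injective (algebraMap O K) := IsFractionRing.injective O K
  have hOF : Function.Injective (algebraMap O F) := by
    rw [IsScalarTower.algebraMap_eq O K F]
    exact (algebraMap K F).injective.comp hOK
  have hreg' : ∀ (i : ι) (P : Ideal (Algebra.adjoin K (Set.range fun j => y j / y i)).toSubring)
      [P.IsPrime], IsRegularLocalRing (Localization.AtPrime P) := by
    intro i P hP
    obtain ⟨J, hJ, hJη, hcov⟩ := hX.charts
    have := hJ i
    exact regular_of_stalk hreg (J i) P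
  obtain ⟨D, M, hM, hall⟩ := module_b (K := K) hint y hy hreg' β
  obtain ⟨g, hg, hg0⟩ := hM.ne
  obtain ⟨e, he, heη⟩ := mainAt y hy hM.pos hM.fg hM.le hM.comm hsep hη hX g hg hg0
  have hpM : IsProper (modelMap M) := modelMap_isProper M hOF hM.fg
  -- the local ring of a point
  have key : ∀ (L : Type) [Field L] [CharZero L] (ψ : Spec (CommRingCat.of L) ⟶ X),
      ∃ (A : Subring F) (π : A →+* L) (y₀ : F),
        Pt (Submodule.span O (Set.range y)) A π y₀ ∧
        ∀ (g : F) (hg : g ∈ M) (hg0 : g ≠ 0) (hBA : (chart O M g).toSubring ≤ A)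
          (jY : Spec (CommRingCat.of (chart O M g).toSubring) ⟶ model M),
          Spec.map (CommRingCat.ofHom (chart O M g).toSubring.subtype) ≫ jY =
            Pool.Agent.W398.GF.eta M g hg hg0 →
          ψ ≫ e.inv ≫ pullback.fst _ _ =
            Spec.map (CommRingCat.ofHom (π.comp (Subring.inclusion hBA))) ≫ jY := by
    intro L _ _ ψ
    obtain ⟨i₀, j, hj, α, hjη, hαψ⟩ := factor_chart hX ψ
    have hkp : (RingHom.ker α).IsPrime := RingHom.ker_isPrime _
    obtain ⟨A, π, hA, hπα, hPt⟩ := pt_of (O := O) (K := K) y hy i₀ α (hreg' i₀ (RingHom.ker α))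
    let sX : Spec (CommRingCat.of A) ⟶ X := Spec.map (CommRingCat.ofHom (Subring.inclusion hA)) ≫ j
    have hsη : io A ≫ sX = η := by
      change io A ≫ Spec.map _ ≫ j = η
      rw [← Category.assoc, ← hjη]
      congr 1
      change Spec.map _ ≫ Spec.map _ = Spec.map _
      rw [← Spec.map_comp]
      rfl
    have hψ : ψ = Spec.map (CommRingCat.ofHom π) ≫ sX := by
      rw [← hαψ]
      change _ = Spec.map _ ≫ Spec.map _ ≫ j
      rw [← Category.assoc, ← Spec.map_comp]
      congr 2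
      ext b
      exact (hπα b).symm
    refine ⟨A, π, y i₀, hPt, ?_⟩
    intro g₁ hg₁ hg₁0 hBA jY hjYη
    have hss : sX ≫ e.inv ≫ pullback.fst _ _ =
        Spec.map (CommRingCat.ofHom (Subring.inclusion hBA)) ≫ jY := by
      have hd : IsDominant (io A) := ⟨io_dense A⟩
      have h1 : io A ≫ sX ≫ e.inv ≫ pullback.fst _ _ =
          io A ≫ Spec.map (CommRingCat.ofHom (Subring.inclusion hBA)) ≫ jY := by
        have h2 : io A ≫ Spec.map (CommRingCat.ofHom (Subring.inclusion hBA)) ≫ jY =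
            Pool.Agent.W398.GF.eta M g₁ hg₁ hg₁0 := by
          rw [← Category.assoc, ← hjYη]
          congr 1
          change Spec.map _ ≫ Spec.map _ = Spec.map _
          rw [← Spec.map_comp]
          rfl
        rw [h2, ← Category.assoc, hsη, heη]
        exact Pool.Agent.W398.GF.eta_eq M hg hg₁ hg0 hg₁0
      refine ext_of_isDominant_of_isSeparated (modelMap M) ?_ (io A) h1
      apply io_mono
      have h2 := congrArg (fun m => m ≫ modelMap M) h1
      simp only [Category.assoc] at h2 ⊢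
      exact h2
    rw [hψ, Category.assoc, hss, ← Category.assoc, ← Spec.map_comp]
    rfl
  refine ⟨M, g, hg, hg0, e, hM.fg, he, ?_, ?_⟩
  · intro L _ _ VL hB ψ
    obtain ⟨A, π, y₀, hPt, hχ⟩ := key L ψ
    obtain ⟨V, hV⟩ := exists_tr A π VL hPt.unit
    obtain ⟨g₁, hg₁, hg₁0, hMV, hlo⟩ := hall V ⟨L, inferInstance, inferInstance, A, π, y₀, VL, hPt,
      hB, hV⟩
    have hOV : ∀ o : O, algebraMap O F o ∈ V := fun o =>
      (hV.mem ⟨_, hPt.OA o⟩).2 (map_mem_val' hint
        (π.comp ((algebraMap O F).codRestrict A hPt.OA)) VL o)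
    obtain ⟨hMA, hfr⟩ := frac_chart hV hPt.OA hPt.OL hPt.mem hPt.ne hPt.MA hPt.fr hM.pos hM.le
      hM.comm hg₁ hg₁0 hMV
    have hBA := chart_le_A hPt.OA hMA
    obtain ⟨jY, hjY, hjYU, hjYη⟩ := Pool.Agent.W398.GF.isChart M g₁ hg₁ hg₁0
    obtain ⟨ψ', hψ', hr⟩ := extend_chart hV (chart_le_V hOV hMV) hBA hlo jY
    refine ⟨ψ', ?_, hr⟩
    rw [hψ', hχ g₁ hg₁ hg₁0 hBA jY hjYη]
  · intro L _ _ hB ψ z hz
    obtain ⟨A, π, y₀, hPt, hχ⟩ := key L ψ
    choose Vf hVf using fun VL => exists_tr A π VL hPt.unit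
    have hR : ∀ VL : ValuationSubring L, IsDiscreteValuationRing VL → Rg (Vf VL) M :=
      fun VL hVL => hall _ ⟨L, inferInstance, inferInstance, A, π, y₀, VL, hPt, hB VL hVL, hVf VL⟩
    exact regular_closure_cm hOF hM hint hPt hVf hR (ψ ≫ e.inv ≫ pullback.fst _ _) hχ z hz

end

/-- Models of a regular integral projective scheme, regular at the centres of all the bounded
traits. -/
theorem proj_b {O K : Type} [CommRing O] [IsDedekindDomain O] [Field K] [CharZero K]
    [Algebra O K] [IsFractionRing O K] [Module.Finite ℤ O] (hint : ∀ o : O, IsIntegral ℤ o)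
    {X : Scheme.{0}} [IsIntegral X] (f : X ⟶ Spec (CommRingCat.of K))
    (hreg : ∀ x : X, IsRegularLocalRing (X.presheaf.stalk x))
    {A : Type} [CommRing A] [Algebra K A] (𝒜 : ℕ → Submodule K A) [GradedAlgebra 𝒜]
    (h0 : ∀ a ∈ 𝒜 0, ∃ q : K, algebraMap K A q = a) (s : Finset A) (hs : ∀ a ∈ s, a ∈ 𝒜 1)
    (hgen : Algebra.adjoin K (s : Set A) = ⊤) (i : X ≅ Proj 𝒜)
    (hif : i.hom ≫ Proj.toSpecZero 𝒜 ≫ Spec.map (CommRingCat.ofHom (algebraMap K (𝒜 0))) = f)
    (β : ℕ → ℕ) :
    ∃ (F : Type) (_ : Field F) (_ : Algebra K F) (_ : Algebra O F) (_ : IsScalarTower O K F)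
      (M : Submodule O F) (g : F) (hg : g ∈ M) (hg0 : g ≠ 0)
      (e : pullback (modelMap M) (Spec.map (CommRingCat.ofHom (algebraMap O K))) ≅ X), M.FG ∧
      e.hom ≫ f = pullback.snd _ _ ∧
      (∀ (L : Type) [Field L] [CharZero L] (VL : ValuationSubring L), Bd β VL →
        ∀ ψ : Spec (CommRingCat.of L) ⟶ X, ∃ ψ' : Spec (CommRingCat.of VL) ⟶ model M,
        Spec.map (CommRingCat.ofHom VL.subtype) ≫ ψ' = ψ ≫ e.inv ≫ pullback.fst _ _ ∧
        IsRegularLocalRing ((model M).presheaf.stalk (ψ' (IsLocalRing.closedPoint VL)))) ∧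
      (∀ (L : Type) [Field L] [NumberField L],
        (∀ VL : ValuationSubring L, IsDiscreteValuationRing VL → Bd β VL) →
        ∀ (ψ : Spec (CommRingCat.of L) ⟶ X) (z : model M),
        (ψ ≫ e.inv ≫ pullback.fst _ _) (thePt L) ⤳ z →
        IsRegularLocalRing ((model M).presheaf.stalk z)) := by
  classical
  have hPne : Nonempty (Proj 𝒜) := ⟨i.hom (genericPoint X)⟩
  have hP : IsIntegral (Proj 𝒜) := isIntegral_of_isOpenImmersion i.inv
  have hregP : ∀ x : (Proj 𝒜 : Scheme.{0}), IsRegularLocalRing ((Proj 𝒜).presheaf.stalk x) := by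
    intro x
    have h1 := hreg (i.inv x)
    have e := (asIso (i.inv.stalkMap x)).commRingCatIsoToRingEquiv
    exact IsRegularLocalRing.of_ringEquiv e
  obtain ⟨F, hF, η, hη⟩ := exists_generic (Proj 𝒜)
  let fP : Proj 𝒜 ⟶ Spec (CommRingCat.of K) :=
    Proj.toSpecZero 𝒜 ≫ Spec.map (CommRingCat.ofHom (algebraMap K (𝒜 0)))
  obtain ⟨φ, hφ⟩ := Spec.map_surjective (η ≫ fP)
  let _ : Algebra K F := φ.hom.toAlgebra
  have hηK : η ≫ fP = Spec.map (CommRingCat.ofHom (algebraMap K F)) := hφ.symm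
  let _ : Algebra O F := ((algebraMap K F).comp (algebraMap O K)).toAlgebra
  have hst : IsScalarTower O K F := IsScalarTower.of_algebraMap_eq' rfl
  obtain ⟨ι, hι, hne, y, hy, hat⟩ := proj_atlas 𝒜 η h0 s hs hgen hη hηK
  have hsep : IsSeparated fP := inferInstance
  obtain ⟨M, g, hg, hg0, e, hM, he, h1, h2⟩ := model_b (O := O) hint y hy hsep hregP hηK hat β
  refine ⟨F, hF, inferInstance, inferInstance, hst, M, g, hg, hg0, e ≪≫ i.symm, hM, ?_, ?_, ?_⟩
  · rw [← hif]
    change (e.hom ≫ i.inv) ≫ i.hom ≫ fP = _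
    rw [← he]
    simp
  · intro L _ _ VL hB ψ
    obtain ⟨ψ', h3, h4⟩ := h1 L VL hB (ψ ≫ i.hom)
    refine ⟨ψ', ?_, h4⟩
    rw [h3]
    simp
  · intro L _ _ hB ψ z hz
    refine h2 L hB (ψ ≫ i.hom) z ?_
    have h1 : (ψ ≫ i.hom) ≫ e.inv ≫ pullback.fst (modelMap M)
        (Spec.map (CommRingCat.ofHom (algebraMap O K))) =
        ψ ≫ (e ≪≫ i.symm).inv ≫ pullback.fst _ _ := by simp
    rw [h1]
    exact hz

end Pool.Agent.U426.PA
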