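import Pool.Agent.TH188.ARC.A18

/-!
# Blowing up the closures of the centres of arbitrary traits
-/

set_option autoImplicit false
set_option linter.unusedVariables false
set_option linter.unusedSectionVars false

namespace Pool.Agent.U426.PA

open IsLocalRing Pool.Agent.TH188.QS Pool.Agent.W418.LU2 Pool.Agent.H918R2.Quad
  Pool.Agent.TH188.ARC

variable {O F : Type} [CommRing O] [Field F] [Algebra O F]

/-- The centre of `W` is in the closure of the centre of `V`. -/
def Sp (M : Submodule O F) (W V : ValuationSubring F) : Prop :=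
  ∃ j ∈ M, j ≠ 0 ∧ (∀ m ∈ M, m / j ∈ W) ∧ (∀ m ∈ M, m / j ∈ V) ∧
    ∀ b ∈ chart O M j, V.valuation b < 1 → W.valuation b < 1

lemma Sp.chart {M : Submodule O F} {W V : ValuationSubring F} (h : Sp M W V)
    (hOW : ∀ o, algebraMap O F o ∈ W) (hOV : ∀ o, algebraMap O F o ∈ V) {x : F}
    (hx : x ∈ M) (hx0 : x ≠ 0) (hMW : ∀ m ∈ M, m / x ∈ W) :
    (∀ m ∈ M, m / x ∈ V) ∧ ∀ b ∈ chart O M x, V.valuation b < 1 → W.valuation b < 1 := by
  obtain ⟨j, hj, hj0, hjW, hjV, hjb⟩ := h
  have hu0 : x / j ≠ 0 := div_ne_zero hx0 hj0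
  have huB : x / j ∈ Pool.Agent.H918R2.Quad.chart O M j := Algebra.subset_adjoin ⟨x, hx, rfl⟩
  have huW : ¬ W.valuation (x / j) < 1 := by
    rw [val_lt_iff hu0, not_not, inv_div]
    exact hMW j hj
  have huV : (x / j)⁻¹ ∈ V := by
    by_contra h
    exact huW (hjb _ huB ((val_lt_iff hu0).2 h))
  have hMV : ∀ m ∈ M, m / x ∈ V := fun m hm => by
    have h1 : m / x = m / j * (x / j)⁻¹ := by field_simp
    rw [h1]
    exact V.mul_mem _ _ (hjV m hm) huV
  refine ⟨hMV, fun b hb hbV => ?_⟩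
  obtain ⟨k, hk⟩ := chart_pow_mem hx hx0 hb
  have h1 : b * (x / j) ^ k = b * x ^ k / j ^ k := by rw [div_pow, mul_div_assoc]
  have h2 : b * (x / j) ^ k ∈ Pool.Agent.H918R2.Quad.chart O M j := by
    rw [h1]
    exact pow_div_mem hj0 k _ (hk k le_rfl)
  have h3 : V.valuation (b * (x / j) ^ k) < 1 := by
    rw [map_mul, mul_comm]
    exact mul_lt_one_aux ((V.valuation_le_one_iff _).2
      (V.toSubring.pow_mem (hjV x hx) _)) hbV
  have h4 := hjb _ h2 h3
  have h5 : b = b * (x / j) ^ k * ((x / j)⁻¹) ^ k := by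
    rw [mul_assoc, ← mul_pow, mul_inv_cancel₀ hu0, one_pow, mul_one]
  rw [h5, map_mul, mul_comm]
  refine mul_lt_one_aux ((W.valuation_le_one_iff _).2 (W.toSubring.pow_mem ?_ _)) h4
  rw [inv_div]
  exact hMW j hj

lemma Sp.mono {M M' : Submodule O F} {W U : ValuationSubring F}
    (hOW : ∀ o, algebraMap O F o ∈ W) (hOU : ∀ o, algebraMap O F o ∈ U)
    (hdom : ∃ j ∈ M, j ≠ 0 ∧ (∀ m ∈ M, m / j ∈ W) ∧ ∃ x ∈ M', x ≠ 0 ∧
      (∀ m ∈ M', m / x ∈ W) ∧ Pool.Agent.H918R2.Quad.chart O M j ≤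
        Pool.Agent.H918R2.Quad.chart O M' x) (h : Sp M' W U) : Sp M W U := by
  obtain ⟨j, hj, hj0, hjW, x, hx, hx0, hxW, hle⟩ := hdom
  obtain ⟨h1, h2⟩ := h.chart hOW hOU hx hx0 hxW
  have h3 := chart_le_V hOU h1
  exact ⟨j, hj, hj0, hjW, fun m hm => h3 (hle (Algebra.subset_adjoin ⟨m, hm, rfl⟩)),
    fun b hb hbU => h2 b (hle hb) hbU⟩

lemma Sp.refl' {M : Submodule O F} {W : ValuationSubring F} (hOW : ∀ o, algebraMap O F o ∈ W)
    (hM : M.FG) (hne : ∃ g ∈ M, g ≠ 0) : Sp M W W := by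
  obtain ⟨g, hg, hg0⟩ := hne
  obtain ⟨j, hj, hj0, hjW⟩ := exists_gen_max hOW hM hg hg0
  exact ⟨j, hj, hj0, hjW, hjW, fun b _ h => h⟩

lemma Sp.trans' {M : Submodule O F} {W V U : ValuationSubring F}
    (hOV : ∀ o, algebraMap O F o ∈ V) (hOU : ∀ o, algebraMap O F o ∈ U)
    (h : Sp M W V) (h' : Sp M V U) : Sp M W U := by
  obtain ⟨j, hj, hj0, hjW, hjV, hjb⟩ := h
  obtain ⟨h1, h2⟩ := h'.chart hOV hOU hj hj0 hjV
  exact ⟨j, hj, hj0, hjW, h1, fun b hb hbU => hjb b hb (h2 b hb hbU)⟩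

lemma Sp.lr {M : Submodule O F} {W V : ValuationSubring F}
    (hOW : ∀ o, algebraMap O F o ∈ W) (hOV : ∀ o, algebraMap O F o ∈ V)
    (h : Sp M W V) (h' : Sp M V W) {Q : Subring F} (hQ : LR W M Q) : LR V M Q := by
  obtain ⟨g, hg, hg0, hgW, rfl⟩ := hQ
  obtain ⟨h1, h2⟩ := h.chart hOW hOV hg hg0 hgW
  obtain ⟨-, h3⟩ := h'.chart hOV hOW hg hg0 h1
  have hden : ∀ (b : F) (hb : b ∈ (Pool.Agent.H918R2.Quad.chart O M g).toSubring), b ≠ 0 →
      (b⁻¹ ∈ W ↔ b⁻¹ ∈ V) := by
    intro b hb hb0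
    have e1 := h2 b hb
    have e2 := h3 b hb
    have e3 : (V.valuation b < 1 ↔ b⁻¹ ∉ V) := val_lt_iff hb0
    have e4 : (W.valuation b < 1 ↔ b⁻¹ ∉ W) := val_lt_iff hb0
    tauto
  refine ⟨g, hg, hg0, h1, ?_⟩
  apply le_antisymm
  · rintro _ ⟨a, ha, b, hb, hb0, hbi, rfl⟩
    exact ⟨a, ha, b, hb, hb0, (hden b hb hb0).2 hbi, rfl⟩
  · rintro _ ⟨a, ha, b, hb, hb0, hbi, rfl⟩
    exact ⟨a, ha, b, hb, hb0, (hden b hb hb0).1 hbi, rfl⟩

/-- The effect of a step on the local ring at the centre of `W`. -/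
theorem step_LR' [IsNoetherianRing O] [IsDomain O] {V : ValuationSubring F}
    (hOV : ∀ o, algebraMap O F o ∈ V) {ϖ : O} (hϖ0 : algebraMap O F ϖ ≠ 0)
    (hϖ : V.valuation (algebraMap O F ϖ) < 1) {M : Submodule O F} {g : F}
    (hg : g ∈ M) (hg0 : g ≠ 0) (hMV : ∀ m ∈ M, m / g ∈ V) {k : ℕ} (hk : 1 ≤ k)
    {j : F} (hj : j ∈ M) (hj0 : j ≠ 0)
    (hsj : (∀ m ∈ M, m / j ∈ V) → ∃ s : Finset (chart O M j).toSubring,
      (∀ b : (chart O M j).toSubring,
        b ∈ Ideal.span (s : Set (chart O M j).toSubring) ↔ V.valuation (b : F) < 1) ∧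
      ∀ y ∈ s, (y : F) * j ^ k ∈ M ^ k)
    {W : ValuationSubring F} (hOW : ∀ o, algebraMap O F o ∈ W) (hMW : ∀ m ∈ M, m / j ∈ W) :
    (lo W.toSubring (chart O M j).toSubring = lo V.toSubring (chart O M g).toSubring →
      (∃ e, Mi W.toSubring (lo W.toSubring (chart O M j).toSubring) e) ∧
      LR W (cut V hOV (M ^ (k + 1)) (g ^ (k + 1)))
        (qt W.toSubring (lo W.toSubring (chart O M j).toSubring))) ∧
    (lo W.toSubring (chart O M j).toSubring ≠ lo V.toSubring (chart O M g).toSubring →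
      ¬ Sp M W V → LR W (cut V hOV (M ^ (k + 1)) (g ^ (k + 1))) (lo W.toSubring (chart O M j).toSubring)) := by
  classical
  have hBW := chart_le_V hOW hMW
  have hBVg := chart_le_V hOV hMV
  have hle : cut V hOV (M ^ (k + 1)) (g ^ (k + 1)) ≤ M ^ (k + 1) := fun m hm => hm.1
  have hjg : j / g ∈ V := hMV j hj
  have hjg0 : j / g ≠ 0 := div_ne_zero hj0 hg0
  have hgk : g ^ (k + 1) ≠ 0 := pow_ne_zero _ hg0
  have hjk : j ^ (k + 1) ≠ 0 := pow_ne_zero _ hj0
  by_cases hcase : V.valuation (j / g) < 1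
  · -- the chart of `j` does not contain the centre
    have hmem : j ^ (k + 1) ∈ cut V hOV (M ^ (k + 1)) (g ^ (k + 1)) :=
      ⟨Submodule.pow_mem_pow _ hj _, by
        rw [← div_pow, map_pow]
        exact pow_lt_one₀ zero_le hcase (Nat.succ_ne_zero k)⟩
    obtain ⟨hx0, hM'W, hlo⟩ := other_aux (x := j ^ (k + 1)) hOW hle hj0 hMW hmem (by
        rw [div_self hjk, map_one]
        exact lt_irrefl _) (by
        intro m hm
        have h1 : m / j * j ^ (k + 1) = m * j ^ k := by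
          rw [pow_succ]
          field_simp
        rw [h1]
        refine ⟨by rw [pow_succ' M]; exact Submodule.mul_mem_mul hm (Submodule.pow_mem_pow _ hj _),
          ?_⟩
        have h2 : m * j ^ k / g ^ (k + 1) = m / g * (j / g) ^ k := by
          rw [pow_succ, div_pow]
          field_simp
        rw [h2, map_mul, map_pow]
        exact mul_lt_one_aux ((V.valuation_le_one_iff _).2 (hMV m hm))
          (pow_lt_one₀ zero_le hcase (by omega)))
    refine ⟨fun heq => ?_, fun _ _ => ⟨_, hmem, hx0, hM'W, hlo⟩⟩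
    exfalso
    have h1 : g / j ∈ lo W.toSubring (chart O M j).toSubring :=
      le_lo _ _ (Algebra.subset_adjoin ⟨g, hg, rfl⟩)
    rw [heq] at h1
    have h2 := lo_le hBVg h1
    rw [val_lt_iff hjg0, inv_div] at hcase
    exact hcase h2
  · have hgj : g / j ∈ V := by
      rw [val_lt_iff hjg0, not_not, inv_div] at hcase
      exact hcase
    have hMVj : ∀ m ∈ M, m / j ∈ V := fun m hm => by
      have h1 : m / j = m / g * (g / j) := by field_simp
      rw [h1]
      exact V.mul_mem _ _ (hMV m hm) hgj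
    have hBV := chart_le_V hOV hMVj
    have hVlo : lo V.toSubring (chart O M g).toSubring =
        lo V.toSubring (chart O M j).toSubring := lo_chart_eq hOV hg hg0 hj hj0 hMV hMVj
    have hcut : cut V hOV (M ^ (k + 1)) (g ^ (k + 1)) = cut V hOV (M ^ (k + 1)) (j ^ (k + 1)) := by
      have e1 : ∀ m : F, m / g ^ (k + 1) = (j / g) ^ (k + 1) * (m / j ^ (k + 1)) := fun m => by
        rw [div_pow]; field_simp
      have e2 : ∀ m : F, m / j ^ (k + 1) = (g / j) ^ (k + 1) * (m / g ^ (k + 1)) := fun m => by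
        rw [div_pow]; field_simp
      have l1 : V.valuation ((j / g) ^ (k + 1)) ≤ 1 :=
        (V.valuation_le_one_iff _).2 (V.toSubring.pow_mem hjg _)
      have l2 : V.valuation ((g / j) ^ (k + 1)) ≤ 1 :=
        (V.valuation_le_one_iff _).2 (V.toSubring.pow_mem hgj _)
      ext m
      constructor
      · rintro ⟨h1, h2⟩
        refine ⟨h1, ?_⟩
        rw [e2, map_mul]
        exact mul_lt_one_aux l2 h2
      · rintro ⟨h1, h2⟩
        refine ⟨h1, ?_⟩
        rw [e1, map_mul]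
        exact mul_lt_one_aux l1 h2
    rw [hcut, hVlo]
    obtain ⟨s, hs, hks⟩ := hsj hMVj
    have hle' : cut V hOV (M ^ (k + 1)) (j ^ (k + 1)) ≤ M ^ (k + 1) := fun m hm => hm.1
    by_cases hall : ∀ b : (chart O M j).toSubring, V.valuation (b : F) < 1 ↔
        W.valuation (b : F) < 1
    · -- the centres agree
      have hcutW : cut V hOV (M ^ (k + 1)) (j ^ (k + 1)) =
          cut W hOW (M ^ (k + 1)) (j ^ (k + 1)) := by
        ext m
        constructor
        · rintro ⟨h1, h2⟩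
          exact ⟨h1, (hall ⟨_, pow_div_mem hj0 _ m h1⟩).1 h2⟩
        · rintro ⟨h1, h2⟩
          exact ⟨h1, (hall ⟨_, pow_div_mem hj0 _ m h1⟩).2 h2⟩
      rw [hcutW]
      have hϖW : W.valuation (algebraMap O F ϖ) < 1 :=
        (hall ⟨_, Subalgebra.algebraMap_mem (chart O M j) ϖ⟩).1 hϖ
      obtain ⟨g', hg', hg'0, hM'W, he, hlo⟩ := step_core hOW hϖ0 hϖW hj hj0 hMW s
        (fun b => (hs b).trans (hall b)) k hks
      refine ⟨fun _ => ⟨he, g', hg', hg'0, hM'W, hlo⟩, fun hne _ => absurd ?_ hne⟩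
      have hden : ∀ (b : F) (hb : b ∈ (chart O M j).toSubring), b ≠ 0 → (b⁻¹ ∈ W ↔ b⁻¹ ∈ V) := by
        intro b hb hb0
        have h1 := hall ⟨b, hb⟩
        have h2 : (V.valuation b < 1 ↔ b⁻¹ ∉ V) := val_lt_iff hb0
        have h3 : (W.valuation b < 1 ↔ b⁻¹ ∉ W) := val_lt_iff hb0
        have h4 : V.valuation b < 1 ↔ W.valuation b < 1 := h1
        tauto
      apply le_antisymm
      · rintro _ ⟨a, ha, b, hb, hb0, hbi, rfl⟩
        exact ⟨a, ha, b, hb, hb0, (hden b hb hb0).1 hbi, rfl⟩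
      · rintro _ ⟨a, ha, b, hb, hb0, hbi, rfl⟩
        exact ⟨a, ha, b, hb, hb0, (hden b hb hb0).2 hbi, rfl⟩
    · -- the centres are different
      refine ⟨fun heq => absurd ?_ hall, fun _ hsp => ?_⟩
      · intro b
        have hbQ : (b : F) ∈ lo W.toSubring (chart O M j).toSubring := le_lo _ _ b.2
        have hbQ' : (b : F) ∈ lo V.toSubring (chart O M j).toSubring := le_lo _ _ b.2
        by_cases hb0 : (b : F) = 0
        · rw [hb0, map_zero, map_zero]
          exact ⟨fun _ => zero_lt_one, fun _ => zero_lt_one⟩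
        rw [val_lt_iff hb0, val_lt_iff hb0, not_iff_not]
        constructor
        · intro h1
          have h2 := ic_lo hBV _ hbQ' hb0 h1
          rw [← heq] at h2
          exact lo_le hBW h2
        · intro h1
          have h2 := ic_lo hBW _ hbQ hb0 h1
          rw [heq] at h2
          exact lo_le hBV h2
      have hy : ∃ y ∈ s, ¬ W.valuation (y : F) < 1 := by
        by_contra hcon
        push Not at hcon
        have hVW : ∀ b : (chart O M j).toSubring, V.valuation (b : F) < 1 →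
            W.valuation (b : F) < 1 := by
          intro b hb
          rw [← hs] at hb
          induction hb using Submodule.span_induction with
          | mem y hy => exact hcon y hy
          | zero => rw [ZeroMemClass.coe_zero, map_zero]; exact zero_lt_one
          | add a b _ _ ha hb =>
            rw [Subring.coe_add]
            exact Valuation.map_add_lt _ ha hb
          | smul c a _ ha =>
            rw [smul_eq_mul, Subring.coe_mul, map_mul]
            exact mul_lt_one_aux ((W.valuation_le_one_iff _).2 (hBW c.2)) ha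
        exact hsp ⟨j, hj, hj0, hMW, hMVj, fun b hb h => hVW ⟨b, hb⟩ h⟩
      obtain ⟨y, hys, hyW⟩ := hy
      have hyV : V.valuation (y : F) < 1 := (hs y).1 (Ideal.subset_span hys)
      have hyk := hks y hys
      have hyM : (y : F) * j ^ (k + 1) ∈ cut V hOV (M ^ (k + 1)) (j ^ (k + 1)) := by
        refine ⟨?_, ?_⟩
        · have h1 : (y : F) * j ^ (k + 1) = (y : F) * j ^ k * j := by rw [pow_succ, mul_assoc]
          rw [h1, pow_succ M]
          exact Submodule.mul_mem_mul hyk hj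
        · rw [mul_div_cancel_right₀ _ hjk]
          exact hyV
      obtain ⟨hx0, hM'W, hlo⟩ := other_aux (x := (y : F) * j ^ (k + 1)) hOW hle' hj0 hMW hyM (by
          rw [mul_div_cancel_right₀ _ hjk]
          exact hyW) (by
          intro m hm
          have h1 : m / j * ((y : F) * j ^ (k + 1)) = m * ((y : F) * j ^ k) := by
            rw [pow_succ]
            field_simp
          rw [h1]
          refine ⟨by rw [pow_succ' M]; exact Submodule.mul_mem_mul hm hyk, ?_⟩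
          have h2 : m * ((y : F) * j ^ k) / j ^ (k + 1) = m / j * y := by
            rw [pow_succ]
            field_simp
          rw [h2, map_mul]
          exact mul_lt_one_aux ((V.valuation_le_one_iff _).2 (hMVj m hm)) hyV)
      exact ⟨_, hyM, hx0, hM'W, hlo⟩

/-- The new model dominates the old one. -/
theorem step_dom [IsNoetherianRing O] [IsDomain O] {V : ValuationSubring F}
    (hOV : ∀ o, algebraMap O F o ∈ V) {ϖ : O} (hϖ0 : algebraMap O F ϖ ≠ 0)
    (hϖ : V.valuation (algebraMap O F ϖ) < 1) {M : Submodule O F} {g : F}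
    (hg : g ∈ M) (hg0 : g ≠ 0) (hMV : ∀ m ∈ M, m / g ∈ V) {k : ℕ} (hk : 1 ≤ k)
    {j : F} (hj : j ∈ M) (hj0 : j ≠ 0)
    (hsj : (∀ m ∈ M, m / j ∈ V) → ∃ s : Finset (chart O M j).toSubring,
      (∀ b : (chart O M j).toSubring,
        b ∈ Ideal.span (s : Set (chart O M j).toSubring) ↔ V.valuation (b : F) < 1) ∧
      ∀ y ∈ s, (y : F) * j ^ k ∈ M ^ k)
    {W : ValuationSubring F} (hOW : ∀ o, algebraMap O F o ∈ W) (hMW : ∀ m ∈ M, m / j ∈ W) :
    ∃ x ∈ cut V hOV (M ^ (k + 1)) (g ^ (k + 1)), x ≠ 0 ∧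
      (∀ m ∈ cut V hOV (M ^ (k + 1)) (g ^ (k + 1)), m / x ∈ W) ∧
      chart O M j ≤ chart O (cut V hOV (M ^ (k + 1)) (g ^ (k + 1))) x := by
  classical
  have hBW := chart_le_V hOW hMW
  have hle : cut V hOV (M ^ (k + 1)) (g ^ (k + 1)) ≤ M ^ (k + 1) := fun m hm => hm.1
  have hjg : j / g ∈ V := hMV j hj
  have hjg0 : j / g ≠ 0 := div_ne_zero hj0 hg0
  have hgk : g ^ (k + 1) ≠ 0 := pow_ne_zero _ hg0
  have hjk : j ^ (k + 1) ≠ 0 := pow_ne_zero _ hj0
  -- the inclusion of the charts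
  have hinc : ∀ (M' : Submodule O F) (x : F), x ∈ M' → x ≠ 0 → (∀ m ∈ M, m / j * x ∈ M') →
      chart O M j ≤ chart O M' x := by
    intro M' x hx hx0 hmul
    refine Algebra.adjoin_le ?_
    rintro _ ⟨m, hm, rfl⟩
    exact Algebra.subset_adjoin ⟨_, hmul m hm, by rw [mul_div_cancel_right₀ _ hx0]⟩
  by_cases hcase : V.valuation (j / g) < 1
  · -- the chart of `j` does not contain the centre
    have hmem : j ^ (k + 1) ∈ cut V hOV (M ^ (k + 1)) (g ^ (k + 1)) :=
      ⟨Submodule.pow_mem_pow _ hj _, by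
        rw [← div_pow, map_pow]
        exact pow_lt_one₀ zero_le hcase (Nat.succ_ne_zero k)⟩
    have hmul : ∀ m ∈ M, m / j * j ^ (k + 1) ∈ cut V hOV (M ^ (k + 1)) (g ^ (k + 1)) := by
      intro m hm
      have h1 : m / j * j ^ (k + 1) = m * j ^ k := by
        rw [pow_succ]
        field_simp
      rw [h1]
      refine ⟨by rw [pow_succ' M]; exact Submodule.mul_mem_mul hm (Submodule.pow_mem_pow _ hj _),
        ?_⟩
      have h2 : m * j ^ k / g ^ (k + 1) = m / g * (j / g) ^ k := by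
        rw [pow_succ, div_pow]
        field_simp
      rw [h2, map_mul, map_pow]
      exact mul_lt_one_aux ((V.valuation_le_one_iff _).2 (hMV m hm))
        (pow_lt_one₀ zero_le hcase (by omega))
    obtain ⟨hx0, hM'W, hlo⟩ := other_aux (x := j ^ (k + 1)) hOW hle hj0 hMW hmem (by
        rw [div_self hjk, map_one]
        exact lt_irrefl _) hmul
    exact ⟨_, hmem, hx0, hM'W, hinc _ _ hmem hx0 hmul⟩
  · have hgj : g / j ∈ V := by
      rw [val_lt_iff hjg0, not_not, inv_div] at hcase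
      exact hcase
    have hMVj : ∀ m ∈ M, m / j ∈ V := fun m hm => by
      have h1 : m / j = m / g * (g / j) := by field_simp
      rw [h1]
      exact V.mul_mem _ _ (hMV m hm) hgj
    have hcut : cut V hOV (M ^ (k + 1)) (g ^ (k + 1)) = cut V hOV (M ^ (k + 1)) (j ^ (k + 1)) := by
      have e1 : ∀ m : F, m / g ^ (k + 1) = (j / g) ^ (k + 1) * (m / j ^ (k + 1)) := fun m => by
        rw [div_pow]; field_simp
      have e2 : ∀ m : F, m / j ^ (k + 1) = (g / j) ^ (k + 1) * (m / g ^ (k + 1)) := fun m => by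
        rw [div_pow]; field_simp
      have l1 : V.valuation ((j / g) ^ (k + 1)) ≤ 1 :=
        (V.valuation_le_one_iff _).2 (V.toSubring.pow_mem hjg _)
      have l2 : V.valuation ((g / j) ^ (k + 1)) ≤ 1 :=
        (V.valuation_le_one_iff _).2 (V.toSubring.pow_mem hgj _)
      ext m
      constructor
      · rintro ⟨h1, h2⟩
        refine ⟨h1, ?_⟩
        rw [e2, map_mul]
        exact mul_lt_one_aux l2 h2
      · rintro ⟨h1, h2⟩
        refine ⟨h1, ?_⟩
        rw [e1, map_mul]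
        exact mul_lt_one_aux l1 h2
    rw [hcut]
    obtain ⟨s, hs, hks⟩ := hsj hMVj
    have hϖB : algebraMap O F ϖ ∈ (chart O M j).toSubring :=
      Subalgebra.algebraMap_mem (chart O M j) ϖ
    -- the generator of the ideal of the centre of `V` with the largest value at `W`
    have hsne : s.Nonempty := by
      by_contra h
      rw [Finset.not_nonempty_iff_eq_empty] at h
      have h1 : (⟨_, hϖB⟩ : (chart O M j).toSubring) ∈ Ideal.span (s : Set (chart O M j).toSubring) :=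
        (hs _).2 hϖ
      rw [h, Finset.coe_empty, Ideal.span_empty, Ideal.mem_bot] at h1
      exact hϖ0 (congrArg Subtype.val h1)
    obtain ⟨y, hys, hymax⟩ := Finset.exists_max_image s (fun y => W.valuation (y : F)) hsne
    have hmin : ∀ b : (chart O M j).toSubring, V.valuation (b : F) < 1 →
        W.valuation (b : F) ≤ W.valuation (y : F) := by
      intro b hb
      rw [← hs] at hb
      induction hb using Submodule.span_induction with
      | mem y hy => exact hymax y hy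
      | zero => rw [ZeroMemClass.coe_zero, map_zero]; exact zero_le
      | add a b _ _ ha hb =>
        rw [Subring.coe_add]
        exact (Valuation.map_add _ _ _).trans (max_le ha hb)
      | smul c a _ ha =>
        rw [smul_eq_mul, Subring.coe_mul, map_mul]
        exact mul_le_of_le_one_of_le ((W.valuation_le_one_iff _).2 (hBW c.2)) ha
    have hy0 : (y : F) ≠ 0 := by
      intro h
      have h1 := hmin ⟨_, hϖB⟩ hϖ
      rw [h, map_zero] at h1
      have h2 : W.valuation (algebraMap O F ϖ) = 0 := le_antisymm h1 zero_le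
      exact hϖ0 ((Valuation.zero_iff _).1 h2)
    have hyV : V.valuation (y : F) < 1 := (hs y).1 (Ideal.subset_span hys)
    have hyk := hks y hys
    have hyM : (y : F) * j ^ (k + 1) ∈ cut V hOV (M ^ (k + 1)) (j ^ (k + 1)) := by
      refine ⟨?_, ?_⟩
      · have h1 : (y : F) * j ^ (k + 1) = (y : F) * j ^ k * j := by rw [pow_succ, mul_assoc]
        rw [h1, pow_succ M]
        exact Submodule.mul_mem_mul hyk hj
      · rw [mul_div_cancel_right₀ _ hjk]
        exact hyV
    have hx0 : (y : F) * j ^ (k + 1) ≠ 0 := mul_ne_zero hy0 hjk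
    have hmul : ∀ m ∈ M, m / j * ((y : F) * j ^ (k + 1)) ∈
        cut V hOV (M ^ (k + 1)) (j ^ (k + 1)) := by
      intro m hm
      have h1 : m / j * ((y : F) * j ^ (k + 1)) = m * ((y : F) * j ^ k) := by
        rw [pow_succ]
        field_simp
      rw [h1]
      refine ⟨by rw [pow_succ' M]; exact Submodule.mul_mem_mul hm hyk, ?_⟩
      have h2 : m * ((y : F) * j ^ k) / j ^ (k + 1) = m / j * y := by
        rw [pow_succ]
        field_simp
      rw [h2, map_mul]
      exact mul_lt_one_aux ((V.valuation_le_one_iff _).2 (hMVj m hm)) hyV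
    refine ⟨_, hyM, hx0, ?_, hinc _ _ hyM hx0 hmul⟩
    rintro m ⟨hm1, hm2⟩
    have hb := hmin ⟨m / j ^ (k + 1), pow_div_mem hj0 _ m hm1⟩ hm2
    have h1 : m / ((y : F) * j ^ (k + 1)) = m / j ^ (k + 1) * (y : F)⁻¹ := by
      field_simp
    rw [h1, ← W.valuation_le_one_iff, map_mul, map_inv₀]
    exact mul_inv_le_one_of_le₀ hb zero_le

/-- One step at `V`: the effect on all the local rings. -/
theorem gstep [IsNoetherianRing O] [IsDomain O] {V : ValuationSubring F}
    (hOV : ∀ o, algebraMap O F o ∈ V) {ϖ : O} (hϖ0 : algebraMap O F ϖ ≠ 0)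
    (hϖ : V.valuation (algebraMap O F ϖ) < 1) {M : Submodule O F} (hM : M.FG) {QV : Subring F}
    (hQV : LR V M QV) :
    ∃ (D : ℕ) (M' : Submodule O F), 1 ≤ D ∧ M'.FG ∧ M' ≤ M ^ D ∧
      (∀ y ∈ M ^ D, ϖ • y ∈ M') ∧ (∃ g ∈ M', g ≠ 0) ∧
      (∀ W : ValuationSubring F, (∀ o, algebraMap O F o ∈ W) → ∀ Q, LR W M Q →
        (Q = QV → (∃ e, Mi W.toSubring Q e) ∧ Q ≤ W.toSubring ∧ IC W.toSubring Q ∧
          LR W M' (qt W.toSubring Q)) ∧
        (Q ≠ QV → ¬ Sp M W V → LR W M' Q)) ∧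
      ∀ W U : ValuationSubring F, (∀ o, algebraMap O F o ∈ W) → (∀ o, algebraMap O F o ∈ U) →
        Sp M' W U → Sp M W U := by
  classical
  obtain ⟨g, hg, hg0, hMV, rfl⟩ := hQV
  obtain ⟨G, hG⟩ := hM
  have hGM : ∀ j ∈ G, j ∈ M := fun j hj => by rw [← hG]; exact Submodule.subset_span hj
  have hM : M.FG := ⟨G, hG⟩
  have hk : ∀ j : F, ∃ k₀ : ℕ, j ∈ M → j ≠ 0 → (∀ m ∈ M, m / j ∈ V) →
      ∃ s : Finset (chart O M j).toSubring, (∀ b : (chart O M j).toSubring,
        b ∈ Ideal.span (s : Set (chart O M j).toSubring) ↔ V.valuation (b : F) < 1) ∧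
      ∀ k, k₀ ≤ k → ∀ y ∈ s, (y : F) * j ^ k ∈ M ^ k := by
    intro j
    by_cases h : j ∈ M ∧ j ≠ 0 ∧ ∀ m ∈ M, m / j ∈ V
    · obtain ⟨k₀, s, h1, h2⟩ := exists_bound hOV hM h.1 h.2.1 h.2.2
      exact ⟨k₀, fun _ _ _ => ⟨s, h1, h2⟩⟩
    · exact ⟨0, fun h1 h2 h3 => absurd ⟨h1, h2, h3⟩ h⟩
  choose kk hkk using hk
  set k : ℕ := max 1 (max (kk g) (G.sup kk)) with hkdef
  have hk1 : 1 ≤ k := le_max_left _ _
  have hkg : kk g ≤ k := (le_max_left _ _).trans (le_max_right _ _)
  have hkG : ∀ j ∈ G, kk j ≤ k := fun j hj =>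
    (Finset.le_sup hj).trans ((le_max_right _ _).trans (le_max_right _ _))
  obtain ⟨s, hs, hks⟩ := hkk g hg hg0 hMV
  obtain ⟨g', hg', hg'0, hM'V, -, hlo⟩ := step_core hOV hϖ0 hϖ hg hg0 hMV s hs k (hks k hkg)
  have hBV := chart_le_V hOV hMV
  refine ⟨k + 1, cut V hOV (M ^ (k + 1)) (g ^ (k + 1)), Nat.succ_le_succ (Nat.zero_le _), ?_,
    fun m hm => hm.1, ?_, ⟨g', hg', hg'0⟩, ?_, ?_⟩
  · have h1 : (M ^ (k + 1)).FG := hM.pow _
    have h2 : IsNoetherian O (M ^ (k + 1) : Submodule O F) := isNoetherian_of_fg_of_noetherian _ h1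
    have h3 : IsNoetherian O (cut V hOV (M ^ (k + 1)) (g ^ (k + 1))) :=
      isNoetherian_of_le fun m hm => hm.1
    exact Module.Finite.iff_fg.1 inferInstance
  · intro y hy
    refine ⟨Submodule.smul_mem _ _ hy, ?_⟩
    rw [Algebra.smul_def, mul_div_assoc, map_mul]
    exact mul_lt_one_aux' hϖ ((V.valuation_le_one_iff _).2 (hBV (pow_div_mem hg0 _ y hy)))
  · rintro W hOW Q ⟨gW, hgW, hgW0, hMgW, hQ⟩
    -- the generator of largest value
    obtain ⟨j, hjG, hj0, hMW⟩ := exists_gen_max' hOW hG hg hg0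
    have hjM := hGM j hjG
    have hQj : lo W.toSubring (chart O M j).toSubring = Q := by
      rw [← hQ]
      exact lo_chart_eq hOW hjM hj0 hgW hgW0 hMW hMgW
    obtain ⟨h1, h2⟩ := step_LR' hOV hϖ0 hϖ hg hg0 hMV hk1 hjM hj0 (fun h => by
      obtain ⟨s, hs, hks⟩ := hkk j hjM hj0 h
      exact ⟨s, hs, hks k (hkG j hjG)⟩) hOW hMW
    rw [hQj] at h1 h2
    have hBW := chart_le_V hOW hMW
    refine ⟨fun h => ?_, h2⟩
    obtain ⟨h3, h4⟩ := h1 h
    refine ⟨h3, ?_, ?_, h4⟩
    · rw [← hQj]; exact lo_le hBW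
    · rw [← hQj]; exact ic_lo hBW
  · intro W U hOW hOU hsp
    refine Sp.mono hOW hOU ?_ hsp
    obtain ⟨j, hjG, hj0, hMW⟩ := exists_gen_max' hOW hG hg hg0
    have hjM := hGM j hjG
    obtain ⟨x, hx, hx0, hxW, hxc⟩ := step_dom hOV hϖ0 hϖ hg hg0 hMV hk1 hjM hj0 (fun h => by
      obtain ⟨s, hs, hks⟩ := hkk j hjM hj0 h
      exact ⟨s, hs, hks k (hkG j hjG)⟩) hOW hMW
    exact ⟨j, hjM, hj0, hMW, x, hx, hx0, hxW, hxc⟩

end Pool.Agent.U426.PA
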