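import Pool.Agent.U426.PA.B
import Pool.Agent.U426.PA.D

/-!
# Finitely many arbitrary traits
-/

set_option autoImplicit false
set_option linter.unusedVariables false
set_option linter.unusedSectionVars false

namespace Pool.Agent.U426.PA

open IsLocalRing Pool.Agent.TH188.QS Pool.Agent.W418.LU2 Pool.Agent.H918R2.Quad
  Pool.Agent.TH188.ARC

variable {O F : Type} [CommRing O] [Field F] [Algebra O F]

/-- An admissible valuation ring: all the models have finite levels. -/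
structure Ad (M₀ : Submodule O F) (W : ValuationSubring F) : Prop where
  O_mem : ∀ o, algebraMap O F o ∈ W
  pos : ∃ ϖ : O, algebraMap O F ϖ ≠ 0 ∧ W.valuation (algebraMap O F ϖ) < 1
  lev : ∀ (D : ℕ) (M : Submodule O F), Cm M₀ D M → ∃ n, Lv W M n

lemma cm_step [IsDomain O] {M₀ M M' : Submodule O F} {D D' : ℕ} (h : Cm M₀ D M) (hD' : 1 ≤ D')
    (hM' : M'.FG) (hle : M' ≤ M ^ D') {ϖ : O} (hϖ0 : algebraMap O F ϖ ≠ 0)
    (hϖ : ∀ y ∈ M ^ D', ϖ • y ∈ M') (hne : ∃ g ∈ M', g ≠ 0) : Cm M₀ (D * D') M' := by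
  refine ⟨Nat.mul_pos h.pos hD', hM', ?_, ?_, hne⟩
  · rw [pow_mul]
    exact hle.trans (pow_le_pow' h.le D')
  · intro y hy
    rw [pow_mul] at hy
    obtain ⟨s, hs, hsy⟩ := exists_smul_mem_pow' h.comm D' y hy
    refine ⟨ϖ * s, mul_ne_zero (fun h => hϖ0 (by rw [h, map_zero])) hs, ?_⟩
    rw [mul_smul]
    exact hϖ _ hsy

/-- The treatment of one trait. -/
theorem one_trait [IsNoetherianRing O] [IsDomain O] {M₀ : Submodule O F} {T : Type}
    (W : T → ValuationSubring F) (hW : ∀ t, Ad M₀ (W t)) (t : T) (n : ℕ) :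
    ∀ {D : ℕ} {M : Submodule O F}, Cm M₀ D M → Lv (W t) M n →
    ∃ (D' : ℕ) (M' : Submodule O F), Cm M₀ D' M' ∧ Lv (W t) M' 0 ∧
      (∀ s u, Sp M' (W s) (W u) → Sp M (W s) (W u)) ∧
      (∀ s, ¬ Sp M (W s) (W t) → ∀ k, Lv (W s) M k → Lv (W s) M' k) ∧
      ((∀ s u, Sp M (W s) (W u) → Sp M' (W s) (W u)) →
        ∀ s, Sp M (W s) (W t) → Sp M (W t) (W s) → ∀ k, Lv (W s) M k → Lv (W s) M' k) := by
  induction n with
  | zero =>
    intro D M hM h
    exact ⟨D, M, hM, h, fun _ _ h => h, fun _ _ _ h => h, fun _ _ _ _ _ h => h⟩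
  | succ n ih =>
    intro D M hM h
    obtain ⟨QV, hQV, hrest⟩ := id h
    obtain ⟨ϖ, hϖ0, hϖ⟩ := (hW t).pos
    obtain ⟨D₁, M₁, hD₁, hM₁, hle₁, hϖ₁, hne₁, hst, hsp⟩ := gstep (hW t).O_mem hϖ0 hϖ hM.fg hQV
    have hCm := cm_step hM hD₁ hM₁ hle₁ hϖ0 hϖ₁ hne₁
    have huniq : ∀ Q, LR (W t) M Q → Q = QV := fun Q hQ => hQ.unique (hW t).O_mem hQV
    have h1 : Lv (W t) M₁ n := (lv_step (hW t).O_mem (fun Q hQ =>
      ⟨((hst _ (hW t).O_mem) Q hQ).1, fun hne => absurd (huniq Q hQ) hne⟩) h).2 hQV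
    have h2 : ∀ s, ¬ Sp M (W s) (W t) → ∀ k, Lv (W s) M k → Lv (W s) M₁ k := fun s hs k hk =>
      (lv_step (hW s).O_mem (fun Q hQ => ⟨((hst _ (hW s).O_mem) Q hQ).1,
        fun hne => ((hst _ (hW s).O_mem) Q hQ).2 hne hs⟩) hk).1
    have h3 : ∀ s, Sp M (W s) (W t) → Sp M (W t) (W s) → ∀ k, Lv (W s) M k → Lv (W s) M₁ k :=
      fun s hs hs' k hk => (lv_step (hW s).O_mem (fun Q hQ => ⟨((hst _ (hW s).O_mem) Q hQ).1,
        fun hne => absurd (huniq Q (hs.lr (hW s).O_mem (hW t).O_mem hs' hQ)) hne⟩) hk).1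
    obtain ⟨D', M', hM', h0, hmono, hp1, hp2⟩ := ih hCm h1
    refine ⟨D', M', hM', h0, fun s u hsu => hsp _ _ (hW s).O_mem (hW u).O_mem (hmono s u hsu),
      fun s hs k hk => hp1 s (fun h => hs (hsp _ _ (hW s).O_mem (hW t).O_mem h)) k (h2 s hs k hk),
      fun hall s hs hs' k hk => hp2 (fun s u h => hall s u (hsp _ _ (hW s).O_mem (hW u).O_mem h)) s
        (hmono _ _ (hall _ _ hs)) (hmono _ _ (hall _ _ hs')) k (h3 s hs hs' k hk)⟩

/-- The treatment of finitely many traits. -/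
theorem all_traits [IsNoetherianRing O] [IsDomain O] {M₀ : Submodule O F} {T : Type} [Finite T]
    (W : T → ValuationSubring F) (hW : ∀ t, Ad M₀ (W t)) (c : ℕ) :
    ∀ {D : ℕ} {M : Submodule O F}, Cm M₀ D M →
    {x : T × T | Sp M (W x.1) (W x.2)}.ncard = c →
    ∃ (D' : ℕ) (M' : Submodule O F), Cm M₀ D' M' ∧ ∀ t, Lv (W t) M' 0 := by
  classical
  have := Fintype.ofFinite T
  induction c using Nat.strong_induction_on with
  | _ c ih =>
  intro D M hM hc
  let r : T → ℕ := fun t => (Finset.univ.filter fun s => Sp M (W t) (W s)).card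
  have key : ∀ S : Finset T,
      (∃ (D' : ℕ) (M' : Submodule O F), Cm M₀ D' M' ∧ ∀ t, Lv (W t) M' 0) ∨
      ∃ (D' : ℕ) (M' : Submodule O F), Cm M₀ D' M' ∧
        (∀ s u, Sp M' (W s) (W u) ↔ Sp M (W s) (W u)) ∧ ∀ t ∈ S, Lv (W t) M' 0 := by
    intro S
    induction S using Finset.induction_on_max_value r with
    | empty => exact Or.inr ⟨D, M, hM, fun _ _ => Iff.rfl, fun t ht => absurd ht (Finset.notMem_empty _)⟩
    | insert a S haS hmax hS =>
      rcases hS with hS | ⟨D₂, M₂, hM₂, hiff, hS⟩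
      · exact Or.inl hS
      obtain ⟨n, hn⟩ := (hW a).lev D₂ M₂ hM₂
      obtain ⟨D₃, M₃, hM₃, h0, hmono, hp1, hp2⟩ := one_trait W hW a n hM₂ hn
      by_cases hall : ∀ s u, Sp M₂ (W s) (W u) → Sp M₃ (W s) (W u)
      · refine Or.inr ⟨D₃, M₃, hM₃, fun s u => ⟨fun h => (hiff s u).1 (hmono s u h),
          fun h => hall s u ((hiff s u).2 h)⟩, fun t ht => ?_⟩
        rcases Finset.mem_insert.1 ht with rfl | ht
        · exact h0
        · by_cases hta : Sp M₂ (W t) (W a)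
          · refine hp2 hall t hta ?_ 0 (hS t ht)
            rw [hiff] at hta ⊢
            have hsub : (Finset.univ.filter fun s => Sp M (W a) (W s)) ⊆
                (Finset.univ.filter fun s => Sp M (W t) (W s)) := by
              intro s hs
              rw [Finset.mem_filter] at hs ⊢
              exact ⟨Finset.mem_univ _, hta.trans' (hW a).O_mem (hW s).O_mem hs.2⟩
            have heq := Finset.eq_of_subset_of_card_le hsub (hmax t ht)
            have htt : t ∈ (Finset.univ.filter fun s => Sp M (W t) (W s)) :=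
              Finset.mem_filter.2 ⟨Finset.mem_univ _, Sp.refl' (hW t).O_mem hM.fg hM.ne⟩
            rw [← heq] at htt
            exact (Finset.mem_filter.1 htt).2
          · exact hp1 t hta 0 (hS t ht)
      · left
        push Not at hall
        obtain ⟨s, u, hsu, hnsu⟩ := hall
        have hlt : {x : T × T | Sp M₃ (W x.1) (W x.2)}.ncard <
            {x : T × T | Sp M (W x.1) (W x.2)}.ncard := by
          refine Set.ncard_lt_ncard ?_ (Set.toFinite _)
          refine ⟨fun x hx => (hiff _ _).1 (hmono _ _ hx), fun h => hnsu ?_⟩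
          exact h (show ((s, u) : T × T) ∈ {x : T × T | Sp M (W x.1) (W x.2)} from
            (hiff _ _).1 hsu)
        exact ih _ (by rw [← hc]; exact hlt) hM₃ rfl
  rcases key Finset.univ with h | ⟨D', M', hM', -, h⟩
  · exact h
  · exact ⟨D', M', hM', fun t => h t (Finset.mem_univ t)⟩

/-- Traits are admissible. -/
theorem ad_of [IsDomain O] [IsRegularRing O] (hint : ∀ o : O, IsIntegral ℤ o)
    {M₀ : Submodule O F} {L : Type} [Field L] [CharZero L] {A : Subring F} {π : A →+* L} {y₀ : F}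
    (hP : Pt M₀ A π y₀) {VL : ValuationSubring L} [IsDiscreteValuationRing VL]
    (hpos : ∃ N : ℕ, N ≠ 0 ∧ VL.valuation (N : L) < 1) {W : ValuationSubring F}
    (hW : Tr A π VL W) : Ad M₀ W := by
  have hOW : ∀ o, algebraMap O F o ∈ W := fun o => (hW.mem ⟨_, hP.OA o⟩).2 (map_mem_val' hint
    (π.comp ((algebraMap O F).codRestrict A hP.OA)) VL o)
  obtain ⟨N, hN, hNV⟩ := hpos
  obtain ⟨h1, h2, h3⟩ := hP.nat_ne hN
  have hϖ : W.valuation (algebraMap O F (N : O)) < 1 := by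
    rw [map_natCast]
    exact (Pt.val_nat (M₀ := M₀) hW N).2 hNV
  refine ⟨hOW, ⟨N, h2, hϖ⟩, ?_⟩
  intro D M hM
  obtain ⟨g₀, hg₀, hg₀0⟩ := hM.ne
  obtain ⟨g, hg, hg0, hMW⟩ := exists_gen_max hOW hM.fg hg₀ hg₀0
  obtain ⟨hMA, hfr⟩ := frac_chart hW hP.OA hP.OL hP.mem hP.ne hP.MA hP.fr hM.pos hM.le hM.comm
    hg hg0 hMW
  obtain ⟨n, m, hm⟩ := exists_fin_family hM.fg
  have hmM : ∀ i, m i ∈ M := fun i => by rw [← hm]; exact Submodule.subset_span ⟨i, rfl⟩
  have hchart : chart O M g = Algebra.adjoin O (Set.range fun i => m i / g) := by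
    rw [← hm]
    exact chart_span m g
  have hAreg := hP.reg
  obtain ⟨k, hk⟩ := trait_regular (O := O) (fun i => m i / g) (A := A)
    (fun i => hMA _ (hmM i)) hP.OA (π := π) hP.OL (by rw [← hchart]; exact hfr) hW
    (fun i => hMW _ (hmM i)) hOW h1 hϖ
  rw [← hchart, qseq_eq] at hk
  exact ⟨k, _, ⟨g, hg, hg0, hMW, rfl⟩, k, le_rfl, hk⟩

/-- One module for finitely many traits. -/
theorem module_f [IsDomain O] [IsRegularRing O] (hint : ∀ o : O, IsIntegral ℤ o)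
    {M₀ : Submodule O F} (hM₀ : M₀.FG) (hne : ∃ g ∈ M₀, g ≠ 0) {T : Type} [Finite T]
    (L : T → Type) [∀ t, Field (L t)] [∀ t, CharZero (L t)] (A : T → Subring F)
    (π : ∀ t, A t →+* L t) (y₀ : T → F) (h : ∀ t, Pt M₀ (A t) (π t) (y₀ t))
    (VL : ∀ t, ValuationSubring (L t)) (hVL : ∀ t, IsDiscreteValuationRing (VL t))
    (hpos : ∀ t, ∃ N : ℕ, N ≠ 0 ∧ (VL t).valuation (N : L t) < 1)
    (W : T → ValuationSubring F) (hW : ∀ t, Tr (A t) (π t) (VL t) (W t)) :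
    ∃ (D : ℕ) (M : Submodule O F), Cm M₀ D M ∧ ∀ t, Rg (W t) M := by
  have hA : ∀ t, Ad M₀ (W t) := fun t => by
    have := hVL t
    exact ad_of hint (h t) (hpos t) (hW t)
  obtain ⟨D, M, hM, hlv⟩ := all_traits W hA _ (Cm.init hM₀ hne) rfl
  exact ⟨D, M, hM, fun t => (hlv t).rg⟩

end Pool.Agent.U426.PA
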