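import Pool.Agent.U426.PA.E
import Pool.Agent.TH188.ARC.G9

/-!
# Models which are regular at the centres of finitely many arbitrary traits
-/

set_option autoImplicit false
set_option linter.unusedVariables false
set_option linter.unusedSectionVars false

open AlgebraicGeometry CategoryTheory Limits Pointwise HomogeneousLocalization

namespace Pool.Agent.U426.PA

open Pool.Agent.H918R2.Quad Pool.Agent.H968R2.Quad Pool.Agent.W559.GF Pool.Agent.W930.GF
  Pool.Agent.W191.GF Pool.Agent.W418.LU2 Pool.Agent.TH188.QS Pool.Agent.TH188.ARC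

section

variable {O K F : Type} [CommRing O] [IsDedekindDomain O] [Field K] [Algebra O K]
  [IsFractionRing O K] [Field F] [Algebra K F] [Algebra O F] [IsScalarTower O K F]

/-- The local ring of a point of `X`. -/
theorem pt_data {ι : Type} [Fintype ι] [Nonempty ι] (y : ι → F) (hy : ∀ i, y i ≠ 0)
    {X : Scheme.{0}} (hreg : ∀ x : X, IsRegularLocalRing (X.presheaf.stalk x))
    {η : Spec (CommRingCat.of F) ⟶ X}
    (hX : AtlasAt η (fun i => (Algebra.adjoin K (Set.range fun j => y j / y i)).toSubring))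
    {L : Type} [Field L] (ψ : Spec (CommRingCat.of L) ⟶ X) :
    ∃ (A : Subring F) (π : A →+* L) (y₀ : F) (sX : Spec (CommRingCat.of A) ⟶ X),
      Pt (Submodule.span O (Set.range y)) A π y₀ ∧ io A ≫ sX = η ∧
      ψ = Spec.map (CommRingCat.ofHom π) ≫ sX := by
  obtain ⟨i₀, j, hj, α, hjη, hαψ⟩ := factor_chart hX ψ
  have hkp : (RingHom.ker α).IsPrime := RingHom.ker_isPrime _
  have hreg' : IsRegularLocalRing (Localization.AtPrime (RingHom.ker α)) :=
    regular_of_stalk hreg j (RingHom.ker α)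
  obtain ⟨A, π, hA, hπα, hPt⟩ := pt_of (O := O) (K := K) y hy i₀ α hreg'
  refine ⟨A, π, y i₀, Spec.map (CommRingCat.ofHom (Subring.inclusion hA)) ≫ j, hPt, ?_, ?_⟩
  · change io A ≫ Spec.map _ ≫ j = η
    rw [← Category.assoc, ← hjη]
    congr 1
    change Spec.map _ ≫ Spec.map _ = Spec.map _
    rw [← Spec.map_comp]
    rfl
  · rw [← hαψ]
    change _ = Spec.map _ ≫ Spec.map _ ≫ j
    rw [← Category.assoc, ← Spec.map_comp]
    congr 2
    ext b
    exact (hπα b).symm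

/-- The image in the model. -/
theorem pt_image {M : Submodule O F} {g : F} {hg : g ∈ M} {hg0 : g ≠ 0}
    (hpM : IsProper (modelMap M)) {X : Scheme.{0}} {η : Spec (CommRingCat.of F) ⟶ X}
    {θ : X ⟶ model M} (hηθ : η ≫ θ = Pool.Agent.W398.GF.eta M g hg hg0)
    {L : Type} [Field L] {A : Subring F} {π : A →+* L} {sX : Spec (CommRingCat.of A) ⟶ X}
    (hsη : io A ≫ sX = η) {g₁ : F} (hg₁ : g₁ ∈ M) (hg₁0 : g₁ ≠ 0)
    (hBA : (chart O M g₁).toSubring ≤ A)
    (jY : Spec (CommRingCat.of (chart O M g₁).toSubring) ⟶ model M)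
    (hjYη : Spec.map (CommRingCat.ofHom (chart O M g₁).toSubring.subtype) ≫ jY =
      Pool.Agent.W398.GF.eta M g₁ hg₁ hg₁0) :
    (Spec.map (CommRingCat.ofHom π) ≫ sX) ≫ θ =
      Spec.map (CommRingCat.ofHom (π.comp (Subring.inclusion hBA))) ≫ jY := by
  have hss : sX ≫ θ = Spec.map (CommRingCat.ofHom (Subring.inclusion hBA)) ≫ jY := by
    have hd : IsDominant (io A) := ⟨io_dense A⟩
    have h1 : io A ≫ sX ≫ θ =
        io A ≫ Spec.map (CommRingCat.ofHom (Subring.inclusion hBA)) ≫ jY := by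
      have h2 : io A ≫ Spec.map (CommRingCat.ofHom (Subring.inclusion hBA)) ≫ jY =
          Pool.Agent.W398.GF.eta M g₁ hg₁ hg₁0 := by
        rw [← Category.assoc, ← hjYη]
        congr 1
        change Spec.map _ ≫ Spec.map _ = Spec.map _
        rw [← Spec.map_comp]
        rfl
      rw [h2, ← Category.assoc, hsη, hηθ]
      exact Pool.Agent.W398.GF.eta_eq M hg hg₁ hg0 hg₁0
    refine ext_of_isDominant_of_isSeparated (modelMap M) ?_ (io A) h1
    apply io_mono
    have h2 := congrArg (fun m => m ≫ modelMap M) h1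
    simp only [Category.assoc] at h2 ⊢
    exact h2
  rw [Category.assoc, hss, ← Category.assoc, ← Spec.map_comp]
  rfl

theorem model_f (hint : ∀ o : O, IsIntegral ℤ o) {ι : Type} [Fintype ι]
    [Nonempty ι] (y : ι → F) (hy : ∀ i, y i ≠ 0)
    {X : Scheme.{0}} {f : X ⟶ Spec (CommRingCat.of K)} (hsep : IsSeparated f)
    (hreg : ∀ x : X, IsRegularLocalRing (X.presheaf.stalk x))
    {η : Spec (CommRingCat.of F) ⟶ X}
    (hη : η ≫ f = Spec.map (CommRingCat.ofHom (algebraMap K F)))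
    (hX : AtlasAt η (fun i => (Algebra.adjoin K (Set.range fun j => y j / y i)).toSubring))
    {T : Type} [Finite T] (L : T → Type) [∀ t, Field (L t)] [∀ t, CharZero (L t)]
    (VL : ∀ t, ValuationSubring (L t)) (hVL : ∀ t, IsDiscreteValuationRing (VL t))
    (hpos : ∀ t, ∃ N : ℕ, N ≠ 0 ∧ (VL t).valuation (N : L t) < 1)
    (ψ : ∀ t, Spec (CommRingCat.of (L t)) ⟶ X) :
    ∃ (M : Submodule O F) (g : F) (hg : g ∈ M) (hg0 : g ≠ 0)
      (e : pullback (modelMap M) (Spec.map (CommRingCat.ofHom (algebraMap O K))) ≅ X), M.FG ∧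
      e.hom ≫ f = pullback.snd _ _ ∧
      ∀ t, ∃ ψ' : Spec (CommRingCat.of (VL t)) ⟶ model M,
        Spec.map (CommRingCat.ofHom (VL t).subtype) ≫ ψ' = ψ t ≫ e.inv ≫ pullback.fst _ _ ∧
        IsRegularLocalRing ((model M).presheaf.stalk (ψ' (IsLocalRing.closedPoint (VL t)))) := by
  classical
  have hOK : Function.Injective (algebraMap O K) := IsFractionRing.injective O K
  have hOF : Function.Injective (algebraMap O F) := by
    rw [IsScalarTower.algebraMap_eq O K F]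
    exact (algebraMap K F).injective.comp hOK
  choose A π y₀ sX hPt hsη hψ using fun t => pt_data (O := O) y hy hreg hX (ψ t)
  choose W hW using fun t => exists_tr (A t) (π t) (VL t) (hPt t).unit
  have hM₀ : (Submodule.span O (Set.range y)).FG := ⟨Finset.univ.image y, by
    rw [Finset.coe_image, Finset.coe_univ, Set.image_univ]⟩
  obtain ⟨i₁⟩ := ‹Nonempty ι›
  have hne : Nonempty ι := ⟨i₁⟩
  obtain ⟨D, M, hM, hall⟩ := module_f hint hM₀ ⟨y i₁, Submodule.subset_span ⟨i₁, rfl⟩, hy i₁⟩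
    L A π y₀ hPt VL hVL hpos W hW
  obtain ⟨g, hg, hg0⟩ := hM.ne
  obtain ⟨e, he, heη⟩ := mainAt y hy hM.pos hM.fg hM.le hM.comm hsep hη hX g hg hg0
  have hpM : IsProper (modelMap M) := modelMap_isProper M hOF hM.fg
  refine ⟨M, g, hg, hg0, e, hM.fg, he, fun t => ?_⟩
  obtain ⟨g₁, hg₁, hg₁0, hMV, hlo⟩ := hall t
  have hOV : ∀ o : O, algebraMap O F o ∈ W t := fun o =>
    ((hW t).mem ⟨_, (hPt t).OA o⟩).2 (map_mem_val' hint
      ((π t).comp ((algebraMap O F).codRestrict (A t) (hPt t).OA)) (VL t) o)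
  obtain ⟨hMA, hfr⟩ := frac_chart (hW t) (hPt t).OA (hPt t).OL (hPt t).mem (hPt t).ne (hPt t).MA
    (hPt t).fr hM.pos hM.le hM.comm hg₁ hg₁0 hMV
  have hBA := chart_le_A (hPt t).OA hMA
  obtain ⟨jY, hjY, hjYU, hjYη⟩ := Pool.Agent.W398.GF.isChart M g₁ hg₁ hg₁0
  obtain ⟨ψ', hψ', hr⟩ := extend_chart (hW t) (chart_le_V hOV hMV) hBA hlo jY
  refine ⟨ψ', ?_, hr⟩
  rw [hψ', ← pt_image hpM heη (hsη t) hg₁ hg₁0 hBA jY hjYη, ← hψ t]

end

/-- Models of a regular integral projective scheme, regular at the centres of finitely many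
traits. -/
theorem proj_f {O K : Type} [CommRing O] [IsDedekindDomain O] [Field K]
    [Algebra O K] [IsFractionRing O K] (hint : ∀ o : O, IsIntegral ℤ o)
    {X : Scheme.{0}} [IsIntegral X] (f : X ⟶ Spec (CommRingCat.of K))
    (hreg : ∀ x : X, IsRegularLocalRing (X.presheaf.stalk x))
    {A : Type} [CommRing A] [Algebra K A] (𝒜 : ℕ → Submodule K A) [GradedAlgebra 𝒜]
    (h0 : ∀ a ∈ 𝒜 0, ∃ q : K, algebraMap K A q = a) (s : Finset A) (hs : ∀ a ∈ s, a ∈ 𝒜 1)
    (hgen : Algebra.adjoin K (s : Set A) = ⊤) (i : X ≅ Proj 𝒜)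
    (hif : i.hom ≫ Proj.toSpecZero 𝒜 ≫ Spec.map (CommRingCat.ofHom (algebraMap K (𝒜 0))) = f)
    {T : Type} [Finite T] (L : T → Type) [∀ t, Field (L t)] [∀ t, CharZero (L t)]
    (VL : ∀ t, ValuationSubring (L t)) (hVL : ∀ t, IsDiscreteValuationRing (VL t))
    (hpos : ∀ t, ∃ N : ℕ, N ≠ 0 ∧ (VL t).valuation (N : L t) < 1)
    (ψ : ∀ t, Spec (CommRingCat.of (L t)) ⟶ X) :
    ∃ (F : Type) (_ : Field F) (_ : Algebra K F) (_ : Algebra O F) (_ : IsScalarTower O K F)
      (M : Submodule O F) (g : F) (hg : g ∈ M) (hg0 : g ≠ 0)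
      (e : pullback (modelMap M) (Spec.map (CommRingCat.ofHom (algebraMap O K))) ≅ X), M.FG ∧
      e.hom ≫ f = pullback.snd _ _ ∧
      ∀ t, ∃ ψ' : Spec (CommRingCat.of (VL t)) ⟶ model M,
        Spec.map (CommRingCat.ofHom (VL t).subtype) ≫ ψ' = ψ t ≫ e.inv ≫ pullback.fst _ _ ∧
        IsRegularLocalRing ((model M).presheaf.stalk (ψ' (IsLocalRing.closedPoint (VL t)))) := by
  classical
  have hPne : Nonempty (Proj 𝒜) := ⟨i.hom (genericPoint X)⟩
  have hP : IsIntegral (Proj 𝒜) := isIntegral_of_isOpenImmersion i.inv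
  have hregP : ∀ x : (Proj 𝒜 : Scheme.{0}), IsRegularLocalRing ((Proj 𝒜).presheaf.stalk x) := by
    intro x
    have h1 := hreg (i.inv x)
    have e := (asIso (i.inv.stalkMap x)).commRingCatIsoToRingEquiv
    exact IsRegularLocalRing.of_ringEquiv e
  obtain ⟨F, hF, η, hη⟩ := exists_generic (Proj 𝒜)
  let fP : Proj 𝒜 ⟶ Spec (CommRingCat.of K) :=
    Proj.toSpecZero 𝒜 ≫ Spec.map (CommRingCat.ofHom (algebraMap K (𝒜 0)))
  obtain ⟨φ, hφ⟩ := Spec.map_surjective (η ≫ fP)
  let _ : Algebra K F := φ.hom.toAlgebra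
  have hηK : η ≫ fP = Spec.map (CommRingCat.ofHom (algebraMap K F)) := hφ.symm
  let _ : Algebra O F := ((algebraMap K F).comp (algebraMap O K)).toAlgebra
  have hst : IsScalarTower O K F := IsScalarTower.of_algebraMap_eq' rfl
  obtain ⟨ι, hι, hne, y, hy, hat⟩ := proj_atlas 𝒜 η h0 s hs hgen hη hηK
  have hsep : IsSeparated fP := inferInstance
  obtain ⟨M, g, hg, hg0, e, hM, he, h1⟩ := model_f (O := O) hint y hy hsep hregP hηK hat
    L VL hVL hpos (fun t => ψ t ≫ i.hom)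
  refine ⟨F, hF, inferInstance, inferInstance, hst, M, g, hg, hg0, e ≪≫ i.symm, hM, ?_, ?_⟩
  · rw [← hif]
    change (e.hom ≫ i.inv) ≫ i.hom ≫ fP = _
    rw [← he]
    simp
  · intro t
    obtain ⟨ψ', h3, h4⟩ := h1 t
    refine ⟨ψ', ?_, h4⟩
    rw [h3]
    simp

end Pool.Agent.U426.PA
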